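import Pool.Agent.Q37.FF.Frob

/-!
# Complexes with a Frobenius, and reduction modulo an element
-/

set_option autoImplicit false
set_option linter.unusedVariables false

namespace Q37.FF

universe u v

/-- A differential module with a Frobenius. -/
structure FrCx (R : Type u) [CommRing R] (p : ℕ) (C : Type v) [AddCommGroup C] [Module R C] where
  /-- the differential -/
  D : C →ₗ[R] C
  /-- the Frobenius -/
  Fr : C →+ C
  DD : ∀ c, D (D c) = 0
  Fr_smul : ∀ (r : R) (c : C), Fr (r • c) = r ^ p • Fr c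
  Fr_D : ∀ c, Fr (D c) = D (Fr c)

namespace FrCx

variable {R : Type u} [CommRing R] {p : ℕ} {C : Type v} [AddCommGroup C] [Module R C]
  (X : FrCx R p C)

/-- The cohomology. -/
abbrev Coh : Type v :=
  LinearMap.ker X.D ⧸ (LinearMap.range X.D).submoduleOf (LinearMap.ker X.D)

/-- The class of a cocycle. -/
def cl (z : LinearMap.ker X.D) : X.Coh := Submodule.Quotient.mk z

theorem cl_surj (h : X.Coh) : ∃ z, X.cl z = h := Submodule.Quotient.mk_surjective _ h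

theorem cl_eq {z w : LinearMap.ker X.D} : X.cl z = X.cl w ↔ ∃ e : C, (z : C) = w + X.D e := by
  rw [cl, cl, Submodule.Quotient.eq]
  constructor
  · rintro ⟨e, he⟩
    refine ⟨e, ?_⟩
    rw [he]
    change (z : C) = w + (z - w : C)
    rw [add_sub_cancel]
  · rintro ⟨e, he⟩
    refine ⟨e, ?_⟩
    change X.D e = (z - w : C)
    rw [he, add_sub_cancel_left]

theorem cl_add (z w : LinearMap.ker X.D) : X.cl (z + w) = X.cl z + X.cl w := rfl

theorem cl_smul (r : R) (z : LinearMap.ker X.D) : X.cl (r • z) = r • X.cl z := rfl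

theorem cl_zero : X.cl 0 = 0 := rfl

theorem Fr_ker (z : LinearMap.ker X.D) : X.Fr z ∈ LinearMap.ker X.D := by
  rw [LinearMap.mem_ker, ← X.Fr_D, LinearMap.mem_ker.1 z.2, map_zero]

variable [Fact p.Prime] [CharP R p]

/-- The Frobenius on the cocycles. -/
def FrK : LinearMap.ker X.D →ₛₗ[frobenius R p] LinearMap.ker X.D where
  toFun z := ⟨X.Fr z, X.Fr_ker z⟩
  map_add' z w := Subtype.ext (map_add X.Fr _ _)
  map_smul' r z := Subtype.ext (X.Fr_smul r z)

/-- The Frobenius on the cohomology. -/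
def FrH : X.Coh →+ X.Coh :=
  (Submodule.mapQ _ _ X.FrK (by
    rintro z ⟨e, he⟩
    refine ⟨X.Fr e, ?_⟩
    rw [← X.Fr_D, he]
    rfl)).toAddMonoidHom

theorem FrH_cl (z : LinearMap.ker X.D) : X.FrH (X.cl z) = X.cl ⟨X.Fr z, X.Fr_ker z⟩ := rfl

theorem FrH_smul (r : R) (h : X.Coh) : X.FrH (r • h) = r ^ p • X.FrH h := by
  obtain ⟨z, rfl⟩ := X.cl_surj h
  rw [← cl_smul, FrH_cl, FrH_cl, ← cl_smul]
  congr 1
  exact Subtype.ext (X.Fr_smul r z)

end FrCx

/-- A reduction of a complex modulo `y`. -/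
structure Red {R : Type u} [CommRing R] {p : ℕ} {C : Type u} [AddCommGroup C] [Module R C]
    (X : FrCx R p C) {Rb : Type v} [CommRing Rb] {Cb : Type v} [AddCommGroup Cb] [Module Rb Cb]
    (Y : FrCx Rb p Cb) (f : R →+* Rb) (y : R) where
  /-- the reduction map -/
  θ : C →+ Cb
  θ_smul : ∀ (r : R) (c : C), θ (r • c) = f r • θ c
  θ_D : ∀ c, θ (X.D c) = Y.D (θ c)
  θ_Fr : ∀ c, θ (X.Fr c) = Y.Fr (θ c)
  surj : Function.Surjective θ
  f_surj : Function.Surjective f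
  ker : ∀ c, θ c = 0 → ∃ c', c = y • c'
  f_y : f y = 0
  nzd : ∀ c : C, y • c = 0 → c = 0

/-- The total cohomology is generated by the image of the Frobenius. -/
def Full {R : Type u} [CommRing R] {p : ℕ} {C : Type v} [AddCommGroup C] [Module R C]
    (X : FrCx R p C) : Prop :=
  ∀ c, X.D c = 0 → c ∈ Submodule.span R {t : C | ∃ c', X.D c' = 0 ∧ X.Fr c' = t} ⊔
    LinearMap.range X.D

section

variable {R : Type u} [CommRing R] {p : ℕ} [hp : Fact p.Prime] [CharP R p] {C : Type u}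
  [AddCommGroup C] [Module R C] {X : FrCx R p C} {Rb : Type v} [CommRing Rb] {Cb : Type v}
  [AddCommGroup Cb] [Module Rb Cb] {Y : FrCx Rb p Cb} {f : R →+* Rb} {y : R} (Z : Red X Y f y)
include Z

theorem Red.θ_y (c : C) : Z.θ (y • c) = 0 := by rw [Z.θ_smul, Z.f_y, zero_smul]

theorem Red.lift_ker {c : C} (hc : Y.D (Z.θ c) = 0) : ∃ z : LinearMap.ker X.D, X.D c = y • (z : C) := by
  rw [← Z.θ_D] at hc
  obtain ⟨z, hz⟩ := Z.ker _ hc
  refine ⟨⟨z, ?_⟩, hz⟩
  rw [LinearMap.mem_ker]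
  apply Z.nzd
  rw [← map_smul, ← hz, X.DD]

/-- The submodule of `C` used in the first implication. -/
def Red.N (Z : Red X Y f y) : Submodule R C where
  carrier := {c | ∃ z : LinearMap.ker X.D, X.D c = y • (z : C) ∧
    X.cl z ∈ Submodule.span R {t : X.Coh | ∃ h : X.Coh, y • h = 0 ∧ y ^ (p - 1) • X.FrH h = t}}
  zero_mem' := ⟨0, by rw [map_zero]; exact (smul_zero y).symm, by rw [X.cl_zero]; exact Submodule.zero_mem _⟩
  add_mem' := by
    rintro c c' ⟨z, hz, hz'⟩ ⟨w, hw, hw'⟩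
    exact ⟨z + w, by rw [map_add, hz, hw]; exact (smul_add _ _ _).symm,
      by rw [X.cl_add]; exact Submodule.add_mem _ hz' hw'⟩
  smul_mem' := by
    rintro r c ⟨z, hz, hz'⟩
    exact ⟨r • z, by rw [map_smul, hz]; exact smul_comm _ _ _,
      by rw [X.cl_smul]; exact Submodule.smul_mem _ _ hz'⟩

/-- Its image. -/
def Red.Nb (Z : Red X Y f y) : Submodule Rb Cb where
  carrier := {c | ∃ n ∈ Z.N, Z.θ n = c}
  zero_mem' := ⟨0, Submodule.zero_mem _, map_zero _⟩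
  add_mem' := by
    rintro _ _ ⟨n, hn, rfl⟩ ⟨m, hm, rfl⟩
    exact ⟨n + m, Submodule.add_mem _ hn hm, map_add _ _ _⟩
  smul_mem' := by
    rintro r _ ⟨n, hn, rfl⟩
    obtain ⟨r, rfl⟩ := Z.f_surj r
    exact ⟨r • n, Submodule.smul_mem _ _ hn, Z.θ_smul _ _⟩

/-- From the reduction to the complex. -/
theorem good_of_full (hY : Full Y) : Good X.FrH p y y := by
  intro h hh
  obtain ⟨z, rfl⟩ := X.cl_surj h
  rw [← X.cl_smul, ← X.cl_zero, X.cl_eq] at hh
  obtain ⟨c, hc⟩ := hh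
  have hc' : X.D c = y • (z : C) := by
    have : ((y • z : LinearMap.ker X.D) : C) = X.D c := by
      rw [hc]; exact zero_add _
    rw [← this]
    rfl
  have h1 : Y.D (Z.θ c) = 0 := by rw [← Z.θ_D, hc', Z.θ_y]
  have h2 : Submodule.span Rb {t : Cb | ∃ c', Y.D c' = 0 ∧ Y.Fr c' = t} ⊔
      LinearMap.range Y.D ≤ Z.Nb := by
    apply sup_le
    · rw [Submodule.span_le]
      rintro _ ⟨c', hc', rfl⟩
      obtain ⟨c', rfl⟩ := Z.surj c'
      obtain ⟨z', hz'⟩ := Z.lift_ker hc'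
      refine ⟨X.Fr c', ⟨y ^ (p - 1) • ⟨X.Fr z', X.Fr_ker z'⟩, ?_, ?_⟩, Z.θ_Fr c'⟩
      · rw [← X.Fr_D, hz', X.Fr_smul]
        change y ^ p • X.Fr z' = y • y ^ (p - 1) • X.Fr z'
        rw [smul_smul, ← pow_succ', Nat.sub_add_cancel hp.out.pos]
      · rw [X.cl_smul, ← X.FrH_cl]
        refine Submodule.subset_span ⟨X.cl z', ?_, rfl⟩
        rw [← X.cl_smul, ← X.cl_zero, X.cl_eq]
        refine ⟨c', ?_⟩
        rw [hz']
        exact (zero_add _).symm
    · rintro _ ⟨b, rfl⟩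
      obtain ⟨b, rfl⟩ := Z.surj b
      refine ⟨X.D b, ⟨0, ?_, ?_⟩, Z.θ_D b⟩
      · rw [X.DD]
        exact (smul_zero y).symm
      · rw [X.cl_zero]
        exact Submodule.zero_mem _
  obtain ⟨n, ⟨z', hz', hz''⟩, hn⟩ := h2 (hY _ h1)
  have h3 : Z.θ (c - n) = 0 := by rw [map_sub, hn, sub_self]
  obtain ⟨e, he⟩ := Z.ker _ h3
  have h4 : y • ((z : C) - (z' + X.D e)) = 0 := by
    rw [smul_sub, smul_add, ← hc', ← hz', ← map_smul, ← he, map_sub]
    abel
  have h5 := sub_eq_zero.1 (Z.nzd _ h4)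
  have h6 : X.cl z = X.cl z' := X.cl_eq.2 ⟨e, h5⟩
  rw [h6]
  exact hz''

/-- From the complex to the reduction. -/
theorem full_of_good (hs : ∀ h : X.Coh, ∃ h' : X.Coh, y • h' = h) (hG : Good X.FrH p y y) :
    Full Y := by
  intro c hc
  obtain ⟨c, rfl⟩ := Z.surj c
  set T := Submodule.span Rb {t : Cb | ∃ c', Y.D c' = 0 ∧ Y.Fr c' = t} ⊔ LinearMap.range Y.D with hT
  obtain ⟨z, hz⟩ := Z.lift_ker hc
  have h0 : y • X.cl z = 0 := by
    rw [← X.cl_smul, ← X.cl_zero, X.cl_eq]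
    refine ⟨c, ?_⟩
    rw [hz]
    exact (zero_add _).symm
  have h1 := hG _ h0
  have h2 : ∀ h : X.Coh, h ∈ Submodule.span R
      {t : X.Coh | ∃ h : X.Coh, y • h = 0 ∧ y ^ (p - 1) • X.FrH h = t} →
      ∃ (c1 : C) (z1 : LinearMap.ker X.D), X.D c1 = y • (z1 : C) ∧ X.cl z1 = h ∧ Z.θ c1 ∈ T := by
    intro h hh
    induction hh using Submodule.span_induction with
    | mem t ht =>
      obtain ⟨h, hh, rfl⟩ := ht
      obtain ⟨z', rfl⟩ := X.cl_surj h
      rw [← X.cl_smul, ← X.cl_zero, X.cl_eq] at hh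
      obtain ⟨c', hc'⟩ := hh
      have hc'' : X.D c' = y • (z' : C) := by
        have : ((y • z' : LinearMap.ker X.D) : C) = X.D c' := by
          rw [hc']; exact zero_add _
        rw [← this]
        rfl
      refine ⟨X.Fr c', y ^ (p - 1) • ⟨X.Fr z', X.Fr_ker z'⟩, ?_, ?_, ?_⟩
      · rw [← X.Fr_D, hc'', X.Fr_smul]
        change y ^ p • X.Fr z' = y • y ^ (p - 1) • X.Fr z'
        rw [smul_smul, ← pow_succ', Nat.sub_add_cancel hp.out.pos]
      · rw [X.cl_smul, ← X.FrH_cl]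
      · rw [Z.θ_Fr]
        refine Submodule.mem_sup_left (Submodule.subset_span ⟨Z.θ c', ?_, rfl⟩)
        rw [← Z.θ_D, hc'', Z.θ_y]
    | zero =>
      refine ⟨0, 0, ?_, rfl, ?_⟩
      · rw [map_zero]; exact (smul_zero y).symm
      · rw [map_zero]; exact Submodule.zero_mem _
    | add a b _ _ ha hb =>
      obtain ⟨c1, z1, h1, rfl, h3⟩ := ha
      obtain ⟨c2, z2, h1', rfl, h3'⟩ := hb
      refine ⟨c1 + c2, z1 + z2, ?_, rfl, ?_⟩
      · rw [map_add, h1, h1']; exact (smul_add _ _ _).symm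
      · rw [map_add]; exact Submodule.add_mem _ h3 h3'
    | smul r a _ ha =>
      obtain ⟨c1, z1, h1, rfl, h3⟩ := ha
      refine ⟨r • c1, r • z1, ?_, rfl, ?_⟩
      · rw [map_smul, h1]; exact smul_comm _ _ _
      · rw [Z.θ_smul]; exact Submodule.smul_mem _ _ h3
  obtain ⟨c1, z1, h3, h4, h5⟩ := h2 _ h1
  obtain ⟨e, he⟩ := X.cl_eq.1 h4
  -- `D (c - c1 + y e) = 0`
  have h6 : X.D (c - c1 + y • e) = 0 := by
    rw [map_add, map_sub, hz, h3, he, map_smul, smul_add]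
    abel
  obtain ⟨h', hh'⟩ := hs (X.cl ⟨c - c1 + y • e, h6⟩)
  obtain ⟨w, rfl⟩ := X.cl_surj h'
  rw [← X.cl_smul, X.cl_eq] at hh'
  obtain ⟨b, hb⟩ := hh'
  have hb' : y • (w : C) = c - c1 + y • e + X.D b := hb
  have h7 : c = c1 + (y • (w : C) - y • e - X.D b) := by
    rw [hb']
    abel
  have h8 : Z.θ c = Z.θ c1 - Y.D (Z.θ b) := by
    rw [h7, map_add, map_sub, map_sub, Z.θ_y, Z.θ_y, sub_zero, zero_sub, Z.θ_D]
    abel
  rw [h8]
  exact Submodule.sub_mem _ h5 (Submodule.mem_sup_right ⟨_, rfl⟩)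

end

end Q37.FF
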