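import Mathlib

/-!
# Artinian modules: a criterion of Melkersson, an induction principle, and perturbations
-/

set_option autoImplicit false
set_option linter.unusedVariables false

namespace Q37.FF

open IsLocalRing

universe u

section Torsion

variable {R : Type*} [CommRing R] {M : Type*} [AddCommGroup M] [Module R M]

/-- In an Artinian module over a local ring every element is killed by powers of the elements of the
maximal ideal. -/
theorem exists_pow_smul_eq_zero [IsLocalRing R] [IsArtinian R M] {z : R}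
    (hz : z ∈ maximalIdeal R) (m : M) : ∃ n : ℕ, z ^ n • m = 0 := by
  let f : ℕ →o (Submodule R M)ᵒᵈ :=
    { toFun := fun n => OrderDual.toDual (Submodule.span R {z ^ n • m})
      monotone' := by
        intro a b hab
        change Submodule.span R {z ^ b • m} ≤ Submodule.span R {z ^ a • m}
        rw [Submodule.span_singleton_le_iff_mem]
        obtain ⟨c, rfl⟩ := Nat.exists_eq_add_of_le' hab
        rw [pow_add, mul_smul]
        exact Submodule.smul_mem _ _ (Submodule.mem_span_singleton_self _) }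
  obtain ⟨n, hn⟩ := IsArtinian.monotone_stabilizes f
  have h1 : z ^ n • m ∈ Submodule.span R {z ^ (n + 1) • m} := by
    have h2 : Submodule.span R {z ^ n • m} = Submodule.span R {z ^ (n + 1) • m} :=
      hn (n + 1) (Nat.le_succ n)
    rw [← h2]
    exact Submodule.mem_span_singleton_self _
  obtain ⟨r, hr⟩ := Submodule.mem_span_singleton.1 h1
  refine ⟨n, ?_⟩
  have h3 : IsUnit (1 - r * z) := by
    by_contra h
    have h4 : (1 : R) - r * z ∈ maximalIdeal R := (mem_maximalIdeal _).2 h
    have h5 : (1 : R) ∈ maximalIdeal R := by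
      have h6 := Ideal.add_mem _ h4 (Ideal.mul_mem_left _ r hz)
      rwa [sub_add_cancel] at h6
    exact (Ideal.ne_top_iff_one _).1 (maximalIdeal.isMaximal R).ne_top h5
  have h6 : (1 - r * z) • (z ^ n • m) = 0 := by
    rw [sub_smul, one_smul, mul_smul, smul_smul z, ← pow_succ', hr, sub_self]
  exact (h3.smul_eq_zero).1 h6

/-- The elements `z ^ k • u`, `u ∈ U`, `z ^ (k + 1) • u = 0`. -/
def phi (z : R) (k : ℕ) (U : Submodule R M) : Submodule R (LinearMap.ker (LinearMap.lsmul R M z)) where
  carrier := {t | ∃ v ∈ U, z ^ k • v = (t : M)}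
  zero_mem' := ⟨0, U.zero_mem, by simp⟩
  add_mem' := by
    rintro a b ⟨v, hv, hv'⟩ ⟨w, hw, hw'⟩
    exact ⟨v + w, U.add_mem hv hw, by rw [smul_add, hv', hw']; rfl⟩
  smul_mem' := by
    rintro r a ⟨v, hv, hv'⟩
    exact ⟨r • v, U.smul_mem r hv, by rw [smul_comm, hv']; rfl⟩

theorem phi_mono (z : R) {k l : ℕ} (hkl : k ≤ l) {U V : Submodule R M} (h : U ≤ V) :
    phi z l U ≤ phi z k V := by
  rintro t ⟨v, hv, hv'⟩
  obtain ⟨c, rfl⟩ := Nat.exists_eq_add_of_le hkl
  exact ⟨z ^ c • v, V.smul_mem _ (h hv), by rw [smul_smul, ← pow_add, hv']⟩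

theorem eq_of_phi (z : R) (ht : ∀ m : M, ∃ n : ℕ, z ^ n • m = 0) {U V : Submodule R M} (h : U ≤ V)
    (hp : ∀ k, phi z k V ≤ phi z k U) : V ≤ U := by
  have key : ∀ n : ℕ, ∀ v ∈ V, z ^ n • v = 0 → v ∈ U := by
    intro n
    induction n with
    | zero =>
      intro v _ hv'
      rw [pow_zero, one_smul] at hv'
      rw [hv']
      exact U.zero_mem
    | succ n ih =>
      intro v hv hv'
      have h1 : z ^ n • v ∈ LinearMap.ker (LinearMap.lsmul R M z) := by
        rw [LinearMap.mem_ker, LinearMap.lsmul_apply, smul_smul, ← pow_succ', hv']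
      obtain ⟨w, hw, hw'⟩ := hp n (show (⟨z ^ n • v, h1⟩ : LinearMap.ker (LinearMap.lsmul R M z)) ∈
        phi z n V from ⟨v, hv, rfl⟩)
      have h2 : z ^ n • (v - w) = 0 := by rw [smul_sub, hw', sub_self]
      have h3 := ih (v - w) (V.sub_mem hv (h hw)) h2
      have h4 := U.add_mem h3 hw
      rwa [sub_add_cancel] at h4
  intro v hv
  obtain ⟨n, hn⟩ := ht v
  exact key n v hv hn

/-- A `z`-torsion module is Artinian if the kernel of `z` is. -/
theorem isArtinian_of_ker (z : R) (ht : ∀ m : M, ∃ n : ℕ, z ^ n • m = 0)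
    [hA : IsArtinian R (LinearMap.ker (LinearMap.lsmul R M z))] : IsArtinian R M := by
  rw [← monotone_stabilizes_iff_artinian]
  intro f
  have hanti : ∀ a b, a ≤ b → OrderDual.ofDual (f b) ≤ OrderDual.ofDual (f a) :=
    fun a b hab => f.monotone hab
  let g : ℕ →o (Submodule R (LinearMap.ker (LinearMap.lsmul R M z)))ᵒᵈ :=
    { toFun := fun n => OrderDual.toDual (phi z n (OrderDual.ofDual (f n)))
      monotone' := fun a b hab => phi_mono z hab (hanti a b hab) }
  obtain ⟨n0, hn0⟩ := IsArtinian.monotone_stabilizes g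
  have hk : ∀ k : ℕ, ∃ n : ℕ, ∀ m, n ≤ m →
      phi z k (OrderDual.ofDual (f n)) = phi z k (OrderDual.ofDual (f m)) := by
    intro k
    let gk : ℕ →o (Submodule R (LinearMap.ker (LinearMap.lsmul R M z)))ᵒᵈ :=
      { toFun := fun n => OrderDual.toDual (phi z k (OrderDual.ofDual (f n)))
        monotone' := fun a b hab => phi_mono z le_rfl (hanti a b hab) }
    exact IsArtinian.monotone_stabilizes gk
  choose nk hnk using hk
  set N := n0 + ∑ k ∈ Finset.range n0, nk k with hN
  refine ⟨N, fun m hm => ?_⟩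
  apply le_antisymm
  · exact f.monotone hm
  · change OrderDual.ofDual (f N) ≤ OrderDual.ofDual (f m)
    apply eq_of_phi z ht (hanti N m hm)
    intro k
    by_cases hkn : k < n0
    · have h1 : nk k ≤ N := by
        have := Finset.single_le_sum (f := nk) (fun _ _ => Nat.zero_le _) (Finset.mem_range.2 hkn)
        omega
      rw [← hnk k N h1, ← hnk k m (h1.trans hm)]
    · have hkn' : n0 ≤ k := not_lt.1 hkn
      -- both sides equal `g n0`
      set M' := max m k with hM'
      have h1 : phi z n0 (OrderDual.ofDual (f n0)) = phi z M' (OrderDual.ofDual (f M')) :=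
        hn0 M' (hkn'.trans (le_max_right _ _))
      calc phi z k (OrderDual.ofDual (f N)) ≤ phi z n0 (OrderDual.ofDual (f n0)) :=
            phi_mono z hkn' (hanti n0 N (by omega))
        _ = phi z M' (OrderDual.ofDual (f M')) := h1
        _ ≤ phi z k (OrderDual.ofDual (f m)) :=
            phi_mono z (le_max_right _ _) (hanti m M' (le_max_left _ _))

end Torsion

section Induction

variable {R : Type u} [CommRing R] [IsNoetherianRing R]

/-- An induction principle for Artinian modules. -/
theorem art_induction (Q : ∀ (M : Type u) [AddCommGroup M] [Module R M], Prop)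
    (hstep : ∀ (M M1 : Type u) [AddCommGroup M] [Module R M] [AddCommGroup M1] [Module R M1]
      [IsArtinian R M] (r : R) (f : M1 →ₗ[R] M), Function.Injective f →
      LinearMap.range f = LinearMap.range (LinearMap.lsmul R M r) → Q M1 →
      Q (M ⧸ LinearMap.range (LinearMap.lsmul R M r)) → Q M)
    (hbase : ∀ (M : Type u) [AddCommGroup M] [Module R M] [IsArtinian R M],
      (∀ r : R, (∀ m : M, r • m = 0) ∨ ∀ m : M, ∃ m' : M, r • m' = m) →
      (∀ (M' : Type u) [AddCommGroup M'] [Module R M'] [IsArtinian R M'],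
        Module.annihilator R M < Module.annihilator R M' → Q M') → Q M)
    (M : Type u) [AddCommGroup M] [Module R M] [IsArtinian R M] : Q M := by
  suffices H : ∀ (I : Ideal R) (M : Type u) [AddCommGroup M] [Module R M] [IsArtinian R M],
      I = Module.annihilator R M → Q M from H _ M rfl
  intro I
  induction I using WellFoundedGT.induction with
  | ind I IH =>
  intro M _ _ _ hI
  have hU : ∀ U : Submodule R M, Q U := by
    intro U
    induction U using WellFoundedLT.induction with
    | ind U IHU =>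
    have hIU : I ≤ Module.annihilator R U := by
      rw [hI]
      intro r hr
      rw [Module.mem_annihilator] at hr ⊢
      intro m
      exact Subtype.ext (hr m)
    by_cases hall : ∀ r : R, (∀ m : U, r • m = 0) ∨ ∀ m : U, ∃ m' : U, r • m' = m
    · apply hbase U hall
      intro M' _ _ _ hlt
      exact IH _ (lt_of_le_of_lt hIU hlt) M' rfl
    · push Not at hall
      obtain ⟨r, ⟨a, ha⟩, ⟨b, hb⟩⟩ := hall
      have hle : U.map (LinearMap.lsmul R M r) ≤ U := by
        rintro _ ⟨v, hv, rfl⟩
        exact U.smul_mem r hv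
      have hlt : U.map (LinearMap.lsmul R M r) < U := by
        refine lt_of_le_of_ne hle ?_
        intro he
        have h1 : (b : M) ∈ U.map (LinearMap.lsmul R M r) := by rw [he]; exact b.2
        obtain ⟨v, hv, hv'⟩ := h1
        exact hb ⟨v, hv⟩ (Subtype.ext hv')
      refine hstep U (U.map (LinearMap.lsmul R M r) : Submodule R M) r (Submodule.inclusion hle)
        (Submodule.inclusion_injective _) ?_ (IHU _ hlt) ?_
      · rw [Submodule.range_inclusion]
        ext v
        rw [Submodule.mem_comap, LinearMap.mem_range]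
        constructor
        · rintro ⟨w, hw, hw'⟩
          exact ⟨⟨w, hw⟩, Subtype.ext hw'⟩
        · rintro ⟨w, rfl⟩
          exact ⟨w, w.2, rfl⟩
      · refine IH _ ?_ _ rfl
        refine lt_of_le_of_ne ?_ ?_
        · intro s hs
          rw [Module.mem_annihilator]
          intro m
          obtain ⟨m, rfl⟩ := Submodule.Quotient.mk_surjective _ m
          rw [← Submodule.Quotient.mk_smul, Module.mem_annihilator.1 (hIU hs) m,
            Submodule.Quotient.mk_zero]
        · intro he
          have h1 : r ∈ I := by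
            rw [he, Module.mem_annihilator]
            intro m
            obtain ⟨m, rfl⟩ := Submodule.Quotient.mk_surjective _ m
            rw [← Submodule.Quotient.mk_smul, Submodule.Quotient.mk_eq_zero]
            exact ⟨m, rfl⟩
          exact ha (Module.mem_annihilator.1 (hIU h1) a)
  have h0 : ∀ (P : Type u) [AddCommGroup P] [Module R P] [IsArtinian R P], Subsingleton P → Q P := by
    intro P _ _ _ hP
    apply hbase P (fun r => Or.inl fun m => Subsingleton.elim _ _)
    intro M' _ _ _ hlt
    exfalso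
    have h1 : Module.annihilator R P = ⊤ := by
      rw [eq_top_iff]
      intro r _
      rw [Module.mem_annihilator]
      exact fun m => Subsingleton.elim _ _
    rw [h1] at hlt
    exact not_top_lt hlt
  have h1 : LinearMap.range (LinearMap.lsmul R M 1) = ⊤ := by
    rw [LinearMap.range_eq_top]
    exact fun m => ⟨m, one_smul _ _⟩
  refine hstep M (⊤ : Submodule R M) 1 (⊤ : Submodule R M).subtype (Submodule.subtype_injective _)
    ?_ (hU ⊤) (h0 _ ?_)
  · rw [Submodule.range_subtype, h1]
  · rw [Submodule.Quotient.subsingleton_iff]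
    exact h1

end Induction

section Perturbation

/-- If `x ∉ P` then `x + δ ∉ P` for all `δ` in a power of the maximal ideal. -/
theorem krull_pert {R : Type*} [CommRing R] [IsNoetherianRing R] [IsLocalRing R] (P : Ideal R) {x : R}
    (hx : x ∉ P) : ∃ N : ℕ, ∀ δ ∈ maximalIdeal R ^ N, x + δ ∉ P := by
  have h1 := Ideal.iInf_pow_smul_eq_bot_of_isLocalRing (R := R) (M := R ⧸ P) (maximalIdeal R)
    (maximalIdeal.isMaximal R).ne_top
  have h2 : (Ideal.Quotient.mk P x : R ⧸ P) ∉ (⨅ i : ℕ, maximalIdeal R ^ i • (⊤ : Submodule R (R ⧸ P))) := by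
    rw [h1, Submodule.mem_bot, Ideal.Quotient.eq_zero_iff_mem]
    exact hx
  rw [Submodule.mem_iInf] at h2
  push Not at h2
  obtain ⟨N, hN⟩ := h2
  refine ⟨N, fun δ hδ hP => hN ?_⟩
  have h3 : (Ideal.Quotient.mk P x : R ⧸ P) = (-δ) • (1 : R ⧸ P) := by
    rw [Algebra.smul_def, mul_one, ← sub_eq_zero]
    change Ideal.Quotient.mk P x - Ideal.Quotient.mk P (-δ) = 0
    rw [← map_sub, Ideal.Quotient.eq_zero_iff_mem, sub_neg_eq_add]
    exact hP
  rw [h3]
  exact Submodule.smul_mem_smul (Submodule.neg_mem _ hδ) Submodule.mem_top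

variable {R : Type u} [CommRing R] [IsNoetherianRing R] [IsLocalRing R]

/-- If `x M = M` for an Artinian module `M`, then `(x + δ) M = M` for all `δ` in a power of the
maximal ideal. -/
theorem pert (x : R) (M : Type u) [AddCommGroup M] [Module R M] [IsArtinian R M]
    (hxM : ∀ m : M, ∃ m' : M, x • m' = m) :
    ∃ N : ℕ, ∀ δ ∈ maximalIdeal R ^ N, ∀ m : M, ∃ m' : M, (x + δ) • m' = m := by
  revert hxM
  apply art_induction (R := R) (fun M _ _ => (∀ m : M, ∃ m' : M, x • m' = m) →
    ∃ N : ℕ, ∀ δ ∈ maximalIdeal R ^ N, ∀ m : M, ∃ m' : M, (x + δ) • m' = m)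
  · intro M M1 _ _ _ _ _ r f hf hr h1 h2 hxM
    have hx1 : ∀ m : M1, ∃ m' : M1, x • m' = m := by
      intro m
      have h3 : f m ∈ LinearMap.range (LinearMap.lsmul R M r) := by rw [← hr]; exact ⟨m, rfl⟩
      obtain ⟨a, ha⟩ := h3
      obtain ⟨b, rfl⟩ := hxM a
      have h4 : r • b ∈ LinearMap.range f := by rw [hr]; exact ⟨b, rfl⟩
      obtain ⟨c, hc⟩ := h4
      refine ⟨c, hf ?_⟩
      rw [map_smul, hc, ← ha, LinearMap.lsmul_apply, smul_comm]
    have hx2 : ∀ m : M ⧸ LinearMap.range (LinearMap.lsmul R M r), ∃ m', x • m' = m := by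
      intro m
      obtain ⟨m, rfl⟩ := Submodule.Quotient.mk_surjective _ m
      obtain ⟨b, rfl⟩ := hxM m
      exact ⟨Submodule.Quotient.mk b, rfl⟩
    obtain ⟨N1, hN1⟩ := h1 hx1
    obtain ⟨N2, hN2⟩ := h2 hx2
    refine ⟨max N1 N2, fun δ hδ m => ?_⟩
    have hδ1 := Ideal.pow_le_pow_right (le_max_left N1 N2) hδ
    have hδ2 := Ideal.pow_le_pow_right (le_max_right N1 N2) hδ
    obtain ⟨a, ha⟩ := hN2 δ hδ2 (Submodule.Quotient.mk m)
    obtain ⟨a, rfl⟩ := Submodule.Quotient.mk_surjective _ a
    rw [← Submodule.Quotient.mk_smul, eq_comm, Submodule.Quotient.eq, ← hr] at ha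
    obtain ⟨b, hb⟩ := ha
    obtain ⟨c, hc⟩ := hN1 δ hδ1 b
    refine ⟨f c + a, ?_⟩
    rw [smul_add, ← map_smul, hc, hb, sub_add_cancel]
  · intro M _ _ _ hall _ hxM
    by_cases hM : ∀ m : M, m = 0
    · exact ⟨0, fun δ _ m => ⟨0, by rw [smul_zero, hM m]⟩⟩
    · push Not at hM
      obtain ⟨m0, hm0⟩ := hM
      have hx : x ∉ Module.annihilator R M := by
        intro h
        obtain ⟨m', hm'⟩ := hxM m0
        apply hm0
        rw [← hm', Module.mem_annihilator.1 h]
      obtain ⟨N, hN⟩ := krull_pert _ hx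
      refine ⟨N, fun δ hδ => ?_⟩
      rcases hall (x + δ) with h | h
      · exact absurd (Module.mem_annihilator.2 h) (hN δ hδ)
      · exact h

end Perturbation

end Q37.FF
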