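import Pool.Agent.Q37.FF.Abs
import Pool.Agent.Q43.FC.Frob

/-!
# The Cech complex with its Frobenius, and its functoriality
-/

set_option autoImplicit false
set_option linter.unusedVariables false
set_option linter.unusedSectionVars false

namespace Q37.FF

open Q43.FC Finset

universe u

section

variable {R : Type u} [CommRing R] {d : ℕ} (p : ℕ) [hp : Fact p.Prime] [hc : CharP R p]

/-- The Cech complex of `w` with its Frobenius. -/
noncomputable def cech (w : Fin d → R) : FrCx R p (Co w id) where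
  D := D w monotone_id 1
  Fr :=
    { toFun := fun c S => c S ^ p
      map_zero' := by
        funext S
        exact zero_pow hp.out.ne_zero
      map_add' := fun c c' => by
        have h := (Fr p w id 1).map_add c c'
        funext S
        have h1 := congrFun h S
        rw [Fr_apply, Pi.add_apply, Pi.add_apply, Fr_apply, Fr_apply, pow_one] at h1
        exact h1 }
  DD := D_D w monotone_id 1
  Fr_smul := fun r c => by
    have h := Fr_smul p 1 r c (x := w) (V := id)
    funext S
    have h1 := congrFun h S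
    rw [Fr_apply, Pi.smul_apply, Pi.smul_apply, Fr_apply, pow_one] at h1
    exact h1
  Fr_D := fun c => by
    have h := Fr_D p (x := w) monotone_id 1 1 c
    rw [show ae p (1 : Fin d → R) 1 = 1 by funext k; simp [ae]] at h
    funext S
    have h1 := congrFun h S
    rw [Fr_apply, pow_one] at h1
    refine h1.trans ?_
    have h2 : Fr p w id 1 c = fun S => c S ^ p := by
      funext S
      rw [Fr_apply, pow_one]
    rw [h2]
    rfl

theorem cech_D (w : Fin d → R) (c : Co w id) : (cech p w).D c = D w monotone_id 1 c := rfl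

theorem cech_Fr (w : Fin d → R) (c : Co w id) : (cech p w).Fr c = fun S => c S ^ p := rfl

end

section

variable {A : Type u} [CommRing A] {d : ℕ}

/-- Every element of the localization is a fraction. -/
theorem exists_frac (w : Fin d → A) (T : Finset (Fin d)) (z : Loc w T) :
    ∃ (n : ℕ) (a : A), (∏ k ∈ T, w k) ^ n • z = algebraMap A (Loc w T) a := by
  obtain ⟨⟨a, ⟨_, n, rfl⟩⟩, h⟩ := IsLocalization.surj (Submonoid.powers (∏ k ∈ T, w k)) z
  refine ⟨n, a, ?_⟩
  rw [Algebra.smul_def, mul_comm]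
  exact h

theorem unit_pow (w : Fin d → A) (T : Finset (Fin d)) (n : ℕ) :
    IsUnit (algebraMap A (Loc w T) ((∏ k ∈ T, w k) ^ n)) := by
  rw [map_pow]
  exact (isUnit_prod w subset_rfl).pow n

theorem smul_cancel (w : Fin d → A) (T : Finset (Fin d)) (n : ℕ) {z z' : Loc w T}
    (h : (∏ k ∈ T, w k) ^ n • z = (∏ k ∈ T, w k) ^ n • z') : z = z' := by
  rw [Algebra.smul_def, Algebra.smul_def] at h
  exact (unit_pow w T n).mul_left_cancel h

theorem exists_div (w : Fin d → A) (T : Finset (Fin d)) (n : ℕ) (z : Loc w T) :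
    ∃ z' : Loc w T, (∏ k ∈ T, w k) ^ n • z' = z := by
  obtain ⟨u, hu⟩ := unit_pow w T n
  refine ⟨↑u⁻¹ * z, ?_⟩
  rw [Algebra.smul_def, ← hu, Units.mul_inv_cancel_left]

theorem alg_zero (w : Fin d → A) (T : Finset (Fin d)) (a : A) :
    algebraMap A (Loc w T) a = 0 ↔ ∃ n : ℕ, (∏ k ∈ T, w k) ^ n * a = 0 := by
  rw [IsLocalization.map_eq_zero_iff (Submonoid.powers (∏ k ∈ T, w k))]
  constructor
  · rintro ⟨⟨_, n, rfl⟩, h⟩
    exact ⟨n, h⟩
  · rintro ⟨n, h⟩
    exact ⟨⟨_, n, rfl⟩, h⟩

theorem nzd_loc (w : Fin d → A) (T : Finset (Fin d)) {y : A} (hy : ∀ a : A, y * a = 0 → a = 0)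
    {z : Loc w T} (h : y • z = 0) : z = 0 := by
  obtain ⟨n, a, ha⟩ := exists_frac w T z
  have h1 : algebraMap A (Loc w T) (y * a) = 0 := by
    rw [map_mul, ← ha, ← Algebra.smul_def, smul_comm, h, smul_zero]
  obtain ⟨m, hm⟩ := (alg_zero w T _).1 h1
  have h2 : (∏ k ∈ T, w k) ^ m * a = 0 := hy _ (by rw [← hm]; ring)
  apply smul_cancel w T n
  rw [ha, smul_zero]
  exact (alg_zero w T a).2 ⟨m, h2⟩

variable {B : Type u} [CommRing B] {d' : ℕ} (φ : A →+* B) {w : Fin d → A} {w' : Fin d' → B}
  (ι : Fin d' ↪o Fin d) (hw : ∀ j, φ (w (ι j)) = w' j)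

include hw in
theorem phi_prod {T : Finset (Fin d)} {S : Finset (Fin d')} (h : S.map ι.toEmbedding = T) :
    φ (∏ k ∈ T, w k) = ∏ j ∈ S, w' j := by
  subst h
  rw [prod_map, map_prod]
  exact prod_congr rfl fun j _ => hw j

/-- The map of localizations. -/
noncomputable def lf (T : Finset (Fin d)) (S : Finset (Fin d')) (h : S.map ι.toEmbedding = T) :
    Loc w T →+* Loc w' S :=
  IsLocalization.Away.lift (∏ k ∈ T, w k) (g := (algebraMap B (Loc w' S)).comp φ) (by
    rw [RingHom.comp_apply, phi_prod φ ι hw h]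
    exact isUnit_prod w' subset_rfl)

theorem lf_alg {T : Finset (Fin d)} {S : Finset (Fin d')} (h : S.map ι.toEmbedding = T) (a : A) :
    lf φ ι hw T S h (algebraMap A (Loc w T) a) = algebraMap B (Loc w' S) (φ a) :=
  IsLocalization.Away.lift_eq _ _ _

theorem lf_smul {T : Finset (Fin d)} {S : Finset (Fin d')} (h : S.map ι.toEmbedding = T) (a : A)
    (z : Loc w T) : lf φ ι hw T S h (a • z) = φ a • lf φ ι hw T S h z := by
  rw [Algebra.smul_def, map_mul, lf_alg, Algebra.smul_def]

theorem lf_res {T T' : Finset (Fin d)} {S S' : Finset (Fin d')} (h : S.map ι.toEmbedding = T)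
    (h' : S'.map ι.toEmbedding = T') (hT : T' ⊆ T) (hS : S' ⊆ S) (z : Loc w T') :
    lf φ ι hw T S h (res w hT z) = res w' hS (lf φ ι hw T' S' h' z) := by
  obtain ⟨n, a, ha⟩ := exists_frac w T' z
  have h1 : φ (∏ k ∈ T', w k) = ∏ j ∈ S', w' j := phi_prod φ ι hw h'
  have h2 : IsUnit (algebraMap B (Loc w' S) ((∏ j ∈ S', w' j) ^ n)) := by
    rw [map_pow]
    exact (isUnit_prod w' hS).pow n
  apply h2.mul_left_cancel
  rw [← Algebra.smul_def, ← Algebra.smul_def]
  have e1 := lf_smul φ ι hw h ((∏ k ∈ T', w k) ^ n) (res w hT z)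
  rw [map_pow, h1, ← map_smul (res w hT), ha, AlgHom.commutes, lf_alg] at e1
  have e2 := lf_smul φ ι hw h' ((∏ k ∈ T', w k) ^ n) z
  rw [map_pow, h1, ha, lf_alg] at e2
  rw [← e1, ← map_smul (res w' hS), ← e2, AlgHom.commutes]

theorem lf_surj (hφ : Function.Surjective φ) {T : Finset (Fin d)} {S : Finset (Fin d')}
    (h : S.map ι.toEmbedding = T) : Function.Surjective (lf φ ι hw T S h) := by
  intro z
  obtain ⟨n, b, hb⟩ := exists_frac w' S z
  obtain ⟨a, rfl⟩ := hφ b
  obtain ⟨z', hz'⟩ := exists_div w T n (algebraMap A (Loc w T) a)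
  refine ⟨z', ?_⟩
  apply smul_cancel w' S n
  have e1 := lf_smul φ ι hw h ((∏ k ∈ T, w k) ^ n) z'
  rw [map_pow, phi_prod φ ι hw h, hz', lf_alg] at e1
  rw [hb, ← e1]

theorem lf_ker {y : A} (hy : ∀ a, φ a = 0 → ∃ b, a = y * b) {T : Finset (Fin d)}
    {S : Finset (Fin d')} (h : S.map ι.toEmbedding = T) {z : Loc w T}
    (hz : lf φ ι hw T S h z = 0) : ∃ z' : Loc w T, z = y • z' := by
  obtain ⟨n, a, ha⟩ := exists_frac w T z
  have h1 : algebraMap B (Loc w' S) (φ a) = 0 := by
    rw [← lf_alg φ ι hw h, ← ha, lf_smul, hz, smul_zero]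
  obtain ⟨m, hm⟩ := (alg_zero w' S _).1 h1
  rw [← phi_prod φ ι hw h, ← map_pow, ← map_mul] at hm
  obtain ⟨b, hb⟩ := hy _ hm
  obtain ⟨z', hz'⟩ := exists_div w T (m + n) (algebraMap A (Loc w T) b)
  refine ⟨z', ?_⟩
  apply smul_cancel w T (m + n)
  rw [smul_comm, hz', pow_add, mul_smul, ha, Algebra.smul_def, ← map_mul, hb, Algebra.smul_def,
    map_mul]

/-- The map of Cech cochains. -/
noncomputable def theta : Co w id →+ Co w' id where
  toFun c S := lf φ ι hw (S.map ι.toEmbedding) S rfl (c (S.map ι.toEmbedding))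
  map_zero' := by
    funext S
    exact map_zero _
  map_add' c c' := by
    funext S
    exact map_add _ _ _

theorem theta_apply (c : Co w id) {T : Finset (Fin d)} {S : Finset (Fin d')}
    (h : S.map ι.toEmbedding = T) : theta φ ι hw c S = lf φ ι hw T S h (c T) := by
  subst h
  rfl

theorem theta_smul (a : A) (c : Co w id) : theta φ ι hw (a • c) = φ a • theta φ ι hw c := by
  funext S
  rw [Pi.smul_apply, theta_apply φ ι hw _ rfl, theta_apply φ ι hw _ rfl, Pi.smul_apply]
  exact lf_smul φ ι hw rfl a _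

theorem phi_sgn (j : Fin d') (S : Finset (Fin d')) :
    φ (sgn A (ι j) (S.map ι.toEmbedding)) = sgn B j S := by
  rw [sgn, sgn, map_pow, map_neg, map_one]
  congr 1
  rw [filter_map, card_map]
  congr 1
  apply filter_congr
  intro l _
  exact ι.lt_iff_lt

theorem theta_D (c : Co w id) : theta φ ι hw (D w monotone_id 1 c) =
    D w' monotone_id 1 (theta φ ι hw c) := by
  funext S
  rw [theta_apply φ ι hw _ rfl, D_apply, D_apply, map_sum, sum_map]
  apply sum_congr rfl
  intro j hj
  have h1 : (S.erase j).map ι.toEmbedding = (S.map ι.toEmbedding).erase (ι j) := by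
    rw [map_erase]
    rfl
  have h2 := lf_smul φ ι hw (S := S) rfl (sgn A (ι j) (S.map ι.toEmbedding) * (1 : Fin d → A) (ι j))
    (res w (erase_subset (ι j) (S.map ι.toEmbedding)) (c ((S.map ι.toEmbedding).erase (ι j))))
  refine h2.trans ?_
  rw [lf_res φ ι hw rfl h1 _ (erase_subset j S), ← theta_apply φ ι hw c h1, map_mul, phi_sgn]
  simp only [Pi.one_apply, map_one]

theorem theta_surj (hφ : Function.Surjective φ) : Function.Surjective (theta φ ι hw) := by
  intro cb
  have h1 : ∀ T : Finset (Fin d), ∃ z : Loc w T, ∀ (S : Finset (Fin d'))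
      (h : S.map ι.toEmbedding = T), lf φ ι hw T S h z = cb S := by
    intro T
    by_cases hT : ∃ S : Finset (Fin d'), S.map ι.toEmbedding = T
    · obtain ⟨S, rfl⟩ := hT
      obtain ⟨z, hz⟩ := lf_surj φ ι hw hφ (S := S) rfl (cb S)
      refine ⟨z, fun S' h' => ?_⟩
      have h2 : S' = S := map_injective _ h'
      subst h2
      exact hz
    · exact ⟨0, fun S h => absurd ⟨S, h⟩ hT⟩
  choose z hz using h1
  refine ⟨z, ?_⟩
  funext S
  exact hz _ S rfl

variable (p : ℕ) [hp : Fact p.Prime] [CharP A p] [CharP B p]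

theorem theta_Fr (c : Co w id) :
    theta φ ι hw ((cech p w).Fr c) = (cech p w').Fr (theta φ ι hw c) := by
  funext S
  rw [cech_Fr, cech_Fr, theta_apply φ ι hw _ rfl]
  exact map_pow _ _ _

/-- The reduction of the Cech complex. -/
noncomputable def redC (y : A) (hφ : Function.Surjective φ) (hy : ∀ a, φ a = 0 → ∃ b, a = y * b)
    (hy0 : φ y = 0) (hnz : ∀ a : A, y * a = 0 → a = 0) (hι : ∀ k, k ∉ Set.range ι → w k = y) :
    Red (cech p w) (cech p w') φ y where
  θ := theta φ ι hw
  θ_smul := theta_smul φ ι hw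
  θ_D := theta_D φ ι hw
  θ_Fr := theta_Fr φ ι hw p
  surj := theta_surj φ ι hw hφ
  f_surj := hφ
  ker := by
    intro c hc
    have h1 : ∀ T : Finset (Fin d), ∃ z : Loc w T, c T = y • z := by
      intro T
      by_cases hT : ∃ S : Finset (Fin d'), S.map ι.toEmbedding = T
      · obtain ⟨S, hS⟩ := hT
        apply lf_ker φ ι hw hy hS
        rw [← theta_apply φ ι hw c hS, hc]
        rfl
      · have h2 : ∃ k ∈ T, k ∉ Set.range ι := by
          by_contra hcon
          push Not at hcon
          apply hT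
          refine ⟨univ.filter fun j => ι j ∈ T, ?_⟩
          ext k
          rw [mem_map]
          constructor
          · rintro ⟨j, hj, rfl⟩
            exact (mem_filter.1 hj).2
          · intro hk
            obtain ⟨j, rfl⟩ := hcon k hk
            exact ⟨j, mem_filter.2 ⟨mem_univ _, hk⟩, rfl⟩
        obtain ⟨k, hk, hk'⟩ := h2
        have h3 : IsUnit (algebraMap A (Loc w T) y) := by
          rw [← hι k hk']
          have h4 := isUnit_prod w (S := {k}) (T := T) (singleton_subset_iff.2 hk)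
          rwa [prod_singleton] at h4
        obtain ⟨u, hu⟩ := h3
        have h5 : ∀ v : Loc w T, v = y • ((↑u⁻¹ : Loc w T) * v) := by
          intro v
          rw [Algebra.smul_def, ← hu, Units.mul_inv_cancel_left]
        exact ⟨_, h5 (c T)⟩
    choose z hz using h1
    exact ⟨z, funext hz⟩
  f_y := hy0
  nzd := by
    intro c h
    funext T
    exact nzd_loc w T hnz (congrFun h T)

end

end Q37.FF
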