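import Pool.Agent.Q37.FF.Cech

/-!
# The Cech cohomology modules are Artinian
-/

set_option autoImplicit false
set_option linter.unusedVariables false
set_option linter.unusedSectionVars false

namespace Q37.FF

open Q43.FC Finset IsLocalRing

universe u

section General

variable {R : Type*} [CommRing R] {Γ A B : Type*} [AddCommGroup Γ] [Module R Γ] [AddCommGroup A]
  [Module R A] [AddCommGroup B] [Module R B]

theorem artinian_range [IsArtinian R A] (f : Γ →ₗ[R] A) (g : Γ →ₗ[R] B)
    (h : LinearMap.ker f ≤ LinearMap.ker g) : IsArtinian R (LinearMap.range g) := by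
  have h1 : IsArtinian R (Γ ⧸ LinearMap.ker f) :=
    isArtinian_of_injective ((LinearMap.ker f).liftQ f le_rfl)
      (LinearMap.ker_eq_bot.1 (Submodule.ker_liftQ_eq_bot _ _ _ le_rfl))
  have h2 : LinearMap.range ((LinearMap.ker f).liftQ g h) = LinearMap.range g :=
    Submodule.range_liftQ _ _ _
  rw [← h2]
  infer_instance

end General

section

variable {R : Type u} [CommRing R] {d : ℕ} (w : Fin d → R)

/-- The extension of an ideal to a localization. -/
def IL (T : Finset (Fin d)) (I : Ideal R) : Ideal (Loc w T) := I.map (algebraMap R (Loc w T))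

variable {w} {T : Finset (Fin d)} {I : Ideal R}

theorem mem_IL {z : Loc w T} {n : ℕ} {a : R}
    (h : (∏ k ∈ T, w k) ^ n • z = algebraMap R (Loc w T) a) :
    z ∈ IL w T I ↔ ∃ m : ℕ, (∏ k ∈ T, w k) ^ m * a ∈ I := by
  have h1 : z ∈ IL w T I ↔ algebraMap R (Loc w T) a ∈ IL w T I := by
    rw [← h, Algebra.smul_def]
    exact (Ideal.unit_mul_mem_iff_mem _ (unit_pow w T n)).symm
  rw [h1, IL, IsLocalization.algebraMap_mem_map_algebraMap_iff (Submonoid.powers (∏ k ∈ T, w k))]
  constructor
  · rintro ⟨_, ⟨m, rfl⟩, hm⟩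
    exact ⟨m, hm⟩
  · rintro ⟨m, hm⟩
    exact ⟨_, ⟨m, rfl⟩, hm⟩

/-- The elements `r` with `z * r ∈ I`. -/
def cz (I : Ideal R) (z : R) : Ideal R := Submodule.comap (LinearMap.mulLeft R z) I

theorem mem_cz {z r : R} : r ∈ cz I z ↔ z * r ∈ I := Iff.rfl

theorem le_cz (z : R) : I ≤ cz I z := fun _ h => mem_cz.2 (Ideal.mul_mem_left _ _ h)

theorem smul_mem_IL (z : R) (v : Loc w T) : z • v ∈ IL w T I ↔ v ∈ IL w T (cz I z) := by
  obtain ⟨n, a, ha⟩ := exists_frac w T v
  have h1 : (∏ k ∈ T, w k) ^ n • (z • v) = algebraMap R (Loc w T) (z * a) := by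
    rw [smul_comm, ha, Algebra.smul_def, map_mul]
  rw [mem_IL h1, mem_IL ha]
  apply exists_congr
  intro m
  rw [mem_cz, mul_left_comm]

theorem IL_sup {z : R} {v : Loc w T} (h : v ∈ IL w T (I ⊔ Ideal.span {z})) :
    ∃ v2 : Loc w T, v - z • v2 ∈ IL w T I := by
  rw [IL, Ideal.map_sup, Ideal.map_span, Set.image_singleton, Submodule.mem_sup] at h
  obtain ⟨v1, hv1, v2, hv2, rfl⟩ := h
  obtain ⟨a, rfl⟩ := Ideal.mem_span_singleton'.1 hv2
  refine ⟨a, ?_⟩
  rw [Algebra.smul_def, mul_comm a, add_sub_cancel_right]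
  exact hv1

theorem IL_mono {J : Ideal R} (h : I ≤ J) : IL w T I ≤ IL w T J := Ideal.map_mono h

theorem smul_mem_IL' {z : R} (hz : z ∈ I) (v : Loc w T) : z • v ∈ IL w T I := by
  rw [Algebra.smul_def]
  exact Ideal.mul_mem_right _ _ (Ideal.mem_map_of_mem _ hz)

theorem res_IL {S : Finset (Fin d)} (h : S ⊆ T) {v : Loc w S} (hv : v ∈ IL w S I) :
    res w h v ∈ IL w T I := by
  have h1 := Ideal.mem_map_of_mem (res w h).toRingHom hv
  rw [IL, Ideal.map_map] at h1
  have h2 : (res w h).toRingHom.comp (algebraMap R (Loc w S)) = algebraMap R (Loc w T) :=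
    RingHom.ext fun a => (res w h).commutes a
  rw [h2] at h1
  exact h1

theorem IL_of_res {j : Fin d} (hj : j ∉ T) {v : Loc w T}
    (hv : res w (subset_insert j T) v ∈ IL w (insert j T) I) : ∃ m : ℕ, w j ^ m • v ∈ IL w T I := by
  obtain ⟨n, a, ha⟩ := exists_frac w T v
  have h0 : (∏ k ∈ insert j T, w k) ^ n • (res w (subset_insert j T) v) =
      algebraMap R (Loc w (insert j T)) (w j ^ n * a) := by
    have e1 : (∏ k ∈ insert j T, w k) ^ n = w j ^ n * (∏ k ∈ T, w k) ^ n := by
      rw [prod_insert hj, mul_pow]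
    refine (congrArg (· • (res w (subset_insert j T) v)) e1).trans ?_
    change (w j ^ n * (∏ k ∈ T, w k) ^ n) • (res w (subset_insert j T) v) = _
    rw [mul_smul, ← map_smul (res w (subset_insert j T)), ha,
      AlgHom.commutes, Algebra.smul_def, map_mul]
  obtain ⟨m, hm⟩ := (mem_IL h0).1 hv
  refine ⟨m + n, ?_⟩
  have h1 : (∏ k ∈ T, w k) ^ n • (w j ^ (m + n) • v) =
      algebraMap R (Loc w T) (w j ^ (m + n) * a) := by
    rw [smul_comm, ha, Algebra.smul_def, map_mul]
  rw [mem_IL h1]
  refine ⟨m, ?_⟩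
  rw [prod_insert hj, mul_pow] at hm
  convert hm using 1
  ring

theorem div_res {j : Fin d} (hj : j ∉ T) (z : Loc w (insert j T)) :
    ∃ (n : ℕ) (b : Loc w T), res w (subset_insert j T) b = w j ^ n • z := by
  obtain ⟨n, a, ha⟩ := exists_frac w (insert j T) z
  obtain ⟨b, hb⟩ := exists_div w T n (algebraMap R (Loc w T) a)
  refine ⟨n, b, ?_⟩
  have h1 : IsUnit (algebraMap R (Loc w (insert j T)) ((∏ k ∈ T, w k) ^ n)) := by
    rw [map_pow]
    exact (isUnit_prod w (subset_insert j T)).pow n
  apply h1.mul_left_cancel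
  rw [← Algebra.smul_def, ← Algebra.smul_def, ← map_smul (res w (subset_insert j T)), hb,
    AlgHom.commutes, ← ha, smul_smul]
  have e1 : (∏ k ∈ insert j T, w k) ^ n = (∏ k ∈ T, w k) ^ n * w j ^ n := by
    rw [prod_insert hj, mul_pow, mul_comm]
  exact congrArg (· • z) e1

variable (w) in
/-- The cochains with components in the extensions of `I`. -/
def CI (I : Ideal R) : Submodule R (Co w id) where
  carrier := {c | ∀ S : Finset (Fin d), c S ∈ IL w S I}
  zero_mem' := fun S => Ideal.zero_mem _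
  add_mem' := fun h h' S => Ideal.add_mem _ (h S) (h' S)
  smul_mem' := fun r c h S => by
    have h1 : r • (c S : Loc w S) ∈ IL w S I := by
      rw [Algebra.smul_def]
      exact Ideal.mul_mem_left _ _ (h S)
    exact h1

theorem mem_CI {c : Co w id} : c ∈ CI w I ↔ ∀ S : Finset (Fin d), (c S : Loc w S) ∈ IL w S I :=
  Iff.rfl

theorem CI_mono {J : Ideal R} (h : I ≤ J) : CI w I ≤ CI w J := fun _ hc S => IL_mono h (hc S)

theorem smul_mem_CI {z : R} {c : Co w id} : z • c ∈ CI w I ↔ c ∈ CI w (cz I z) := by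
  rw [mem_CI, mem_CI]
  apply forall_congr'
  intro S
  exact smul_mem_IL z (c S)

theorem smul_mem_CI' {z : R} (hz : z ∈ I) (c : Co w id) : z • c ∈ CI w I :=
  fun S => smul_mem_IL' hz (c S)

theorem CI_sup {z : R} {c : Co w id} (h : c ∈ CI w (I ⊔ Ideal.span {z})) :
    ∃ c2 : Co w id, c - z • c2 ∈ CI w I := by
  have h1 : ∀ (S : Finset (Fin d)) (v : Loc w S), v ∈ IL w S (I ⊔ Ideal.span {z}) →
      ∃ v2 : Loc w S, v - z • v2 ∈ IL w S I := fun S v hv => IL_sup hv
  choose v hv using fun S => h1 S (c S) (h S)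
  exact ⟨v, hv⟩

/-- The differential of the Cech complex. -/
noncomputable abbrev DD (w : Fin d → R) : Co w id →ₗ[R] Co w id := D w monotone_id 1

theorem DD_apply (c : Co w id) (S : Finset (Fin d)) :
    DD w c S = ∑ k ∈ S, sgn R k S • res w (erase_subset k S) (c (S.erase k)) := by
  rw [D_apply]
  apply sum_congr rfl
  intro k _
  rw [Pi.one_apply, mul_one]

theorem DD_mem_CI {c : Co w id} (h : c ∈ CI w I) : DD w c ∈ CI w I := by
  intro S
  rw [DD_apply]
  apply Ideal.sum_mem
  intro k _
  rw [Algebra.smul_def]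
  exact Ideal.mul_mem_left _ _ (res_IL _ (h _))

/-- Cocycles modulo `I` are killed by powers of `w j`, up to coboundaries. -/
theorem tors_w (j : Fin d) {c : Co w id} (hc : DD w c ∈ CI w I) :
    ∃ n : ℕ, w j ^ n • c ∈ LinearMap.range (DD w) ⊔ CI w I := by
  -- division
  have h1 : ∀ T : Finset (Fin d), ∃ (n : ℕ) (b : Loc w T), ∀ (S : Finset (Fin d)) (hS : j ∈ S)
      (hT : S.erase j = T), res w (hT ▸ erase_subset j S) b = w j ^ n • (c S : Loc w S) := by
    intro T
    by_cases hj : j ∈ T
    · refine ⟨0, 0, fun S hS hT => ?_⟩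
      exfalso
      rw [← hT] at hj
      exact notMem_erase j S hj
    · obtain ⟨n, b, hb⟩ := div_res hj (c (insert j T))
      refine ⟨n, b, fun S hS hT => ?_⟩
      obtain rfl : S = insert j T := by rw [← hT, insert_erase hS]
      exact hb
  choose n b hb using h1
  set N := ∑ T, n T with hN
  have hnN : ∀ T, n T ≤ N := fun T => single_le_sum (f := n) (fun _ _ => Nat.zero_le _) (mem_univ T)
  set β : Co w id := fun T => if j ∈ T then 0 else (sgn R j T * w j ^ (N - n T)) • b T with hβ
  have hβ1 : ∀ T, j ∈ T → β T = 0 := fun T hT => if_pos hT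
  have hβ2 : ∀ T, j ∉ T → β T = (sgn R j T * w j ^ (N - n T)) • b T := fun T hT => if_neg hT
  set e : Co w id := DD w β - w j ^ N • c with he
  have he1 : ∀ S, j ∈ S → e S = 0 := by
    intro S hS
    have h2 : DD w β S = w j ^ N • (c S : Loc w S) := by
      rw [DD_apply, sum_eq_single j]
      · rw [hβ2 _ (notMem_erase j S), map_smul, sgn_erase_ge (lt_irrefl j), smul_smul, ← mul_assoc,
          sgn_sq, one_mul]
        have h3 := hb (S.erase j) S hS rfl
        rw [h3, smul_smul, ← pow_add, Nat.sub_add_cancel (hnN _)]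
      · intro k hk hkj
        rw [hβ1 (S.erase k) (mem_erase.2 ⟨hkj.symm, hS⟩), map_zero, smul_zero]
      · exact fun h => absurd hS h
    rw [he, Pi.sub_apply, h2]
    exact sub_self _
  have he2 : DD w e ∈ CI w I := by
    rw [he, map_sub, D_D, zero_sub, map_smul]
    exact Submodule.neg_mem _ (Submodule.smul_mem _ _ hc)
  have he3 : ∀ S, j ∉ S → res w (subset_insert j S) (e S) ∈ IL w (insert j S) I := by
    intro S hS
    have h2 := he2 (insert j S)
    rw [DD_apply, sum_eq_single j] at h2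
    · rw [res_congr e (S := (insert j S).erase j) (T := S) _ (subset_insert j S) (erase_insert hS)]
        at h2
      have h3 := Ideal.mul_mem_left _ (algebraMap R (Loc w (insert j S)) (sgn R j (insert j S))) h2
      rw [← Algebra.smul_def, smul_smul, sgn_sq, one_smul] at h3
      exact h3
    · intro k hk hkj
      rw [he1 ((insert j S).erase k) (mem_erase.2 ⟨hkj.symm, mem_insert_self j S⟩), map_zero,
        smul_zero]
    · exact fun h => absurd (mem_insert_self j S) h
  have h4 : ∀ S : Finset (Fin d), ∃ m : ℕ, w j ^ m • (e S : Loc w S) ∈ IL w S I := by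
    intro S
    by_cases hS : j ∈ S
    · refine ⟨0, ?_⟩
      have : (e S : Loc w S) = 0 := he1 S hS
      rw [this, smul_zero]
      exact Ideal.zero_mem _
    · exact IL_of_res hS (he3 S hS)
  choose m hm using h4
  set M := ∑ T, m T with hM
  have hmM : ∀ T, m T ≤ M := fun T => single_le_sum (f := m) (fun _ _ => Nat.zero_le _) (mem_univ T)
  have h5 : w j ^ M • e ∈ CI w I := by
    intro S
    have h6 : w j ^ M • (e S : Loc w S) ∈ IL w S I := by
      rw [← Nat.sub_add_cancel (hmM S), pow_add, mul_smul, Algebra.smul_def]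
      exact Ideal.mul_mem_left _ _ (hm S)
    exact h6
  refine ⟨M + N, ?_⟩
  have h7 : w j ^ (M + N) • c = DD w (w j ^ M • β) - w j ^ M • e := by
    rw [he, smul_sub, map_smul, smul_smul, ← pow_add]
    abel
  rw [h7]
  exact Submodule.sub_mem _ (Submodule.mem_sup_left ⟨_, rfl⟩) (Submodule.mem_sup_right h5)

variable (w) in
/-- The cocycles modulo `I`. -/
noncomputable def ZI (I : Ideal R) : Submodule R (Co w id) := (CI w I).comap (DD w)

variable (w) in
/-- The coboundaries modulo `I`. -/
noncomputable def BI (I : Ideal R) : Submodule R (Co w id) := LinearMap.range (DD w) ⊔ CI w I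

theorem mem_ZI {c : Co w id} : c ∈ ZI w I ↔ DD w c ∈ CI w I := Iff.rfl

theorem ZI_mono {J : Ideal R} (h : I ≤ J) : ZI w I ≤ ZI w J := fun _ hc => CI_mono h hc

theorem BI_mono {J : Ideal R} (h : I ≤ J) : BI w I ≤ BI w J := sup_le_sup_left (CI_mono h) _

variable (w) in
/-- The cohomology modulo `I`. -/
abbrev HI (I : Ideal R) : Type u := ZI w I ⧸ (BI w I).submoduleOf (ZI w I)

theorem HI_zero {c : Co w id} (hc : c ∈ ZI w I) :
    (Submodule.Quotient.mk ⟨c, hc⟩ : HI w I) = 0 ↔ c ∈ BI w I := by
  rw [Submodule.Quotient.mk_eq_zero]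
  rfl

theorem tors_rad {z : R} (hz : z ∈ (Ideal.span (Set.range w)).radical) {c : Co w id}
    (hc : DD w c ∈ CI w I) : ∃ n : ℕ, z ^ n • c ∈ BI w I := by
  set J : Ideal R := Submodule.comap (LinearMap.toSpanSingleton R (Co w id) c) (BI w I) with hJ
  have hJm : ∀ r : R, r ∈ J ↔ r • c ∈ BI w I := fun r => Iff.rfl
  have h1 : Ideal.span (Set.range w) ≤ J.radical := by
    rw [Ideal.span_le]
    rintro _ ⟨j, rfl⟩
    obtain ⟨n, hn⟩ := tors_w j hc
    exact ⟨n, (hJm _).2 hn⟩
  obtain ⟨n, hn⟩ := (Ideal.radical_le_radical_iff.2 h1) hz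
  exact ⟨n, (hJm _).1 hn⟩

theorem CI_max [IsLocalRing R] (hw : ∀ j, w j ∈ maximalIdeal R) {c : Co w id} {a : R}
    (h : (c ∅ : Loc w ∅) = algebraMap R (Loc w ∅) a) (ha : a ∈ maximalIdeal R) :
    c ∈ CI w (maximalIdeal R) := by
  intro S
  by_cases hS : S = ∅
  · subst hS
    change (c ∅ : Loc w ∅) ∈ IL w ∅ (maximalIdeal R)
    rw [h]
    exact Ideal.mem_map_of_mem _ ha
  · obtain ⟨k, hk⟩ := nonempty_iff_ne_empty.2 hS
    have h1 : IL w S (maximalIdeal R) = ⊤ := by
      have h4 := isUnit_prod w (S := {k}) (T := S) (singleton_subset_iff.2 hk)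
      rw [prod_singleton] at h4
      exact Ideal.eq_top_of_isUnit_mem _ (Ideal.mem_map_of_mem _ (hw k)) h4
    have h3 : ∀ v : Loc w S, v ∈ IL w S (maximalIdeal R) := by
      intro v
      rw [h1]
      exact Submodule.mem_top
    exact h3 (c S)

theorem art_base [IsLocalRing R] (hw : ∀ j, w j ∈ maximalIdeal R) :
    IsArtinian R (Co w id ⧸ CI w (maximalIdeal R)) := by
  have hA : IsArtinian R (R ⧸ maximalIdeal R) := by
    let _ : Field (R ⧸ maximalIdeal R) := Ideal.Quotient.field _
    exact isArtinian_of_surjective_algebraMap (R := R ⧸ maximalIdeal R) (S := R)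
      Ideal.Quotient.mk_surjective
  let δ : Co w id := fun S => (1 : Loc w S)
  let f : R →ₗ[R] (Co w id ⧸ CI w (maximalIdeal R)) :=
    (CI w (maximalIdeal R)).mkQ.comp (LinearMap.toSpanSingleton R (Co w id) δ)
  have hf : ∀ r, f r = Submodule.Quotient.mk (r • δ) := fun r => rfl
  have hker : maximalIdeal R ≤ LinearMap.ker f := by
    intro r hr
    rw [LinearMap.mem_ker, hf, Submodule.Quotient.mk_eq_zero]
    exact smul_mem_CI' hr δ
  have hs : Function.Surjective f := by
    intro c
    obtain ⟨c, rfl⟩ := Submodule.Quotient.mk_surjective _ c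
    obtain ⟨n, a, ha'⟩ := exists_frac w ∅ (c ∅)
    have ha : (c ∅ : Loc w ∅) = algebraMap R (Loc w ∅) a := by
      rw [← ha']
      have e1 : (∏ k ∈ (∅ : Finset (Fin d)), w k) ^ n = 1 := by rw [prod_empty, one_pow]
      exact ((congrArg (· • (c ∅ : Loc w ∅)) e1).trans (one_smul R (c ∅ : Loc w ∅))).symm
    refine ⟨a, ?_⟩
    rw [hf, Submodule.Quotient.eq]
    apply CI_max hw (a := 0) _ (Ideal.zero_mem _)
    rw [map_zero]
    have key : ∀ v : Loc w ∅, v = algebraMap R (Loc w ∅) a → a • (1 : Loc w ∅) - v = 0 := by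
      intro v hv
      rw [Algebra.smul_def, mul_one, hv, sub_self]
    exact key (c ∅) ha
  have hs' : Function.Surjective ((maximalIdeal R).liftQ f hker) := by
    intro c
    obtain ⟨r, rfl⟩ := hs c
    exact ⟨Submodule.Quotient.mk r, rfl⟩
  exact isArtinian_of_surjective (R ⧸ maximalIdeal R) ((maximalIdeal R).liftQ f hker) hs'

theorem art_HI [IsLocalRing R] [IsNoetherianRing R]
    (hw : (Ideal.span (Set.range w)).radical = maximalIdeal R) (I : Ideal R) :
    IsArtinian R (HI w I) := by
  have hwm : ∀ j, w j ∈ maximalIdeal R := by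
    intro j
    rw [← hw]
    exact Ideal.le_radical (Ideal.subset_span ⟨j, rfl⟩)
  induction I using WellFoundedGT.induction with
  | ind I IH =>
  by_cases hmI : maximalIdeal R ≤ I
  · -- the base case
    have h0 : IsArtinian R (Co w id ⧸ CI w I) := by
      have h1 := art_base (w := w) hwm
      exact isArtinian_of_surjective _ (Submodule.factor (CI_mono hmI)) (Submodule.factor_surjective _)
    have h2 := artinian_range ((CI w I).mkQ.comp (ZI w I).subtype)
      ((BI w I).submoduleOf (ZI w I)).mkQ (by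
        intro c hc
        rw [LinearMap.mem_ker, LinearMap.comp_apply, Submodule.mkQ_apply,
          Submodule.Quotient.mk_eq_zero] at hc
        rw [Submodule.ker_mkQ]
        exact Submodule.mem_sup_right hc)
    rw [Submodule.range_mkQ] at h2
    exact isArtinian_of_linearEquiv Submodule.topEquiv
  · obtain ⟨z, hzm, hzI⟩ := Set.not_subset.1 hmI
    have hJ2 : I < I ⊔ Ideal.span {z} := by
      refine lt_of_le_of_ne le_sup_left ?_
      intro he
      apply hzI
      change z ∈ I
      rw [he]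
      exact Ideal.mem_sup_right (Ideal.mem_span_singleton_self z)
    by_cases hcz : cz I z = I
    · -- `z` is regular modulo `I`
      have hreg : ∀ c : Co w id, z • c ∈ CI w I → c ∈ CI w I := by
        intro c hc
        rw [smul_mem_CI, hcz] at hc
        exact hc
      let Γ : Submodule R (Co w id × Co w id) :=
        (CI w I).comap (z • LinearMap.fst R (Co w id) (Co w id) -
          (DD w).comp (LinearMap.snd R (Co w id) (Co w id)))
      have hΓ : ∀ c e, (c, e) ∈ Γ ↔ z • c - DD w e ∈ CI w I := fun c e => Iff.rfl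
      have hc1 : ∀ t : Γ, t.1.1 ∈ ZI w I := by
        rintro ⟨⟨c, e⟩, h⟩
        rw [hΓ] at h
        rw [mem_ZI]
        apply hreg
        have h1 := DD_mem_CI h
        rwa [map_sub, D_D, sub_zero, map_smul] at h1
      have he1 : ∀ t : Γ, t.1.2 ∈ ZI w (I ⊔ Ideal.span {z}) := by
        rintro ⟨⟨c, e⟩, h⟩
        rw [hΓ] at h
        rw [mem_ZI]
        have h1 := CI_mono (le_sup_left : I ≤ I ⊔ Ideal.span {z}) h
        have h2 : z • c ∈ CI w (I ⊔ Ideal.span {z}) :=
          smul_mem_CI' (Ideal.mem_sup_right (Ideal.mem_span_singleton_self z)) c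
        have h3 := Submodule.sub_mem _ h2 h1
        rwa [sub_sub_cancel] at h3
      let f : Γ →ₗ[R] HI w (I ⊔ Ideal.span {z}) :=
        ((BI w (I ⊔ Ideal.span {z})).submoduleOf (ZI w (I ⊔ Ideal.span {z}))).mkQ.comp
          (((LinearMap.snd R (Co w id) (Co w id)).comp Γ.subtype).codRestrict _ he1)
      let g : Γ →ₗ[R] HI w I :=
        ((BI w I).submoduleOf (ZI w I)).mkQ.comp
          (((LinearMap.fst R (Co w id) (Co w id)).comp Γ.subtype).codRestrict _ hc1)
      have hA : IsArtinian R (HI w (I ⊔ Ideal.span {z})) := IH _ hJ2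
      have h1 := artinian_range f g (by
        rintro ⟨⟨c, e⟩, h⟩ hf
        have hf' : e ∈ BI w (I ⊔ Ideal.span {z}) :=
          (HI_zero (he1 ⟨(c, e), h⟩)).1 (LinearMap.mem_ker.1 hf)
        have hg' : c ∈ BI w I := by
          obtain ⟨_, ⟨b, rfl⟩, i, hi, rfl⟩ := Submodule.mem_sup.1 hf'
          obtain ⟨c2, hc2⟩ := CI_sup hi
          rw [hΓ, map_add, D_D, zero_add] at h
          have h2 := DD_mem_CI hc2
          rw [map_sub, map_smul] at h2
          have h3 := Submodule.add_mem _ h h2
          have h4 : z • (c - DD w c2) ∈ CI w I := by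
            rw [smul_sub]
            convert h3 using 1
            abel
          have h5 := hreg _ h4
          have h6 : c = DD w c2 + (c - DD w c2) := by abel
          rw [h6]
          exact Submodule.add_mem _ (Submodule.mem_sup_left ⟨_, rfl⟩) (Submodule.mem_sup_right h5)
        exact (HI_zero (hc1 ⟨(c, e), h⟩)).2 hg')
      have h2 : LinearMap.range g = LinearMap.ker (LinearMap.lsmul R (HI w I) z) := by
        ext h
        constructor
        · rintro ⟨⟨⟨c, e⟩, hce⟩, rfl⟩
          rw [hΓ] at hce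
          rw [LinearMap.mem_ker]
          refine (Submodule.Quotient.mk_eq_zero _).2 ?_
          change z • c ∈ BI w I
          have h3 : z • c = DD w e + (z • c - DD w e) := by abel
          rw [h3]
          exact Submodule.add_mem _ (Submodule.mem_sup_left ⟨_, rfl⟩) (Submodule.mem_sup_right hce)
        · intro hh
          obtain ⟨⟨c, hc⟩, rfl⟩ := Submodule.Quotient.mk_surjective _ h
          have h3 : z • c ∈ BI w I :=
            (HI_zero (Submodule.smul_mem _ z hc)).1 (LinearMap.mem_ker.1 hh)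
          obtain ⟨_, ⟨e, rfl⟩, i, hi, hei⟩ := Submodule.mem_sup.1 h3
          refine ⟨⟨(c, e), ?_⟩, rfl⟩
          rw [hΓ, ← hei, add_sub_cancel_left]
          exact hi
      rw [h2] at h1
      apply isArtinian_of_ker z
      intro h
      obtain ⟨⟨c, hc⟩, rfl⟩ := Submodule.Quotient.mk_surjective _ h
      obtain ⟨n, hn⟩ := tors_rad (w := w) (by rw [hw]; exact hzm) hc
      exact ⟨n, (Submodule.Quotient.mk_eq_zero _).2 hn⟩
    · -- `z` is a zero divisor modulo `I`
      have hJ1 : I < cz I z := lt_of_le_of_ne (le_cz z) (Ne.symm hcz)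
      have hA1 : IsArtinian R (HI w (cz I z)) := IH _ hJ1
      have hA2 : IsArtinian R (HI w (I ⊔ Ideal.span {z})) := IH _ hJ2
      let f : HI w (cz I z) →ₗ[R] HI w I := subq (LinearMap.lsmul R (Co w id) z)
        (fun c hc => by
          rw [LinearMap.lsmul_apply, mem_ZI, map_smul, smul_mem_CI]
          exact hc)
        (by
          intro c hc
          obtain ⟨_, ⟨e, rfl⟩, i, hi, rfl⟩ := Submodule.mem_sup.1 hc
          rw [LinearMap.lsmul_apply, smul_add, ← map_smul]
          exact Submodule.add_mem _ (Submodule.mem_sup_left ⟨_, rfl⟩)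
            (Submodule.mem_sup_right (smul_mem_CI.2 hi)))
      let g : HI w I →ₗ[R] HI w (I ⊔ Ideal.span {z}) := subq LinearMap.id
        (fun c hc => ZI_mono le_sup_left hc) (fun c hc => BI_mono le_sup_left hc)
      apply isArtinian_of_range_eq_ker f g
      ext h
      constructor
      · rintro ⟨h, rfl⟩
        obtain ⟨⟨c, hc⟩, rfl⟩ := Submodule.Quotient.mk_surjective _ h
        rw [LinearMap.mem_ker]
        refine (Submodule.Quotient.mk_eq_zero _).2 ?_
        exact Submodule.mem_sup_right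
          (smul_mem_CI' (Ideal.mem_sup_right (Ideal.mem_span_singleton_self z)) c)
      · intro hh
        obtain ⟨⟨c, hc⟩, rfl⟩ := Submodule.Quotient.mk_surjective _ h
        have h3 : c ∈ BI w (I ⊔ Ideal.span {z}) :=
          (HI_zero (ZI_mono le_sup_left hc)).1 (LinearMap.mem_ker.1 hh)
        obtain ⟨_, ⟨e, rfl⟩, i, hi, rfl⟩ := Submodule.mem_sup.1 h3
        obtain ⟨c2, hc2⟩ := CI_sup hi
        have h4 : c2 ∈ ZI w (cz I z) := by
          rw [mem_ZI, ← smul_mem_CI]
          have h5 := DD_mem_CI hc2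
          rw [map_sub, map_smul] at h5
          have h6 : DD w (DD w e + i) ∈ CI w I := hc
          rw [map_add, D_D, zero_add] at h6
          have h7 := Submodule.sub_mem _ h6 h5
          rwa [sub_sub_cancel] at h7
        refine ⟨Submodule.Quotient.mk ⟨c2, h4⟩, ?_⟩
        refine (Submodule.Quotient.eq _).2 ?_
        change z • c2 - (DD w e + i) ∈ BI w I
        have h8 : z • c2 - (DD w e + i) = DD w (-e) + -(i - z • c2) := by
          rw [map_neg]
          abel
        rw [h8]
        exact Submodule.add_mem _ (Submodule.mem_sup_left ⟨_, rfl⟩)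
          (Submodule.mem_sup_right (Submodule.neg_mem _ hc2))

theorem IL_bot : IL w T (⊥ : Ideal R) = ⊥ := Ideal.map_bot

theorem CI_bot {c : Co w id} (h : c ∈ CI w ⊥) : c = 0 := by
  funext S
  have h1 := h S
  change (c S : Loc w S) ∈ IL w S ⊥ at h1
  rw [IL_bot, Ideal.mem_bot] at h1
  exact h1

/-- The total Cech cohomology is Artinian. -/
theorem art_coh [IsLocalRing R] [IsNoetherianRing R]
    (hw : (Ideal.span (Set.range w)).radical = maximalIdeal R) (p : ℕ) [Fact p.Prime] [CharP R p] :
    IsArtinian R (cech p w).Coh := by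
  have h := art_HI hw ⊥
  let f : HI w ⊥ →ₗ[R] (cech p w).Coh := subq LinearMap.id
    (fun c hc => CI_bot hc)
    (fun c hc => by
      obtain ⟨_, ⟨e, rfl⟩, i, hi, rfl⟩ := Submodule.mem_sup.1 hc
      rw [CI_bot hi, add_zero]
      exact ⟨e, rfl⟩)
  apply isArtinian_of_surjective _ f
  intro t
  obtain ⟨⟨c, hc⟩, rfl⟩ := Submodule.Quotient.mk_surjective _ t
  have hc' : DD w c = 0 := hc
  refine ⟨Submodule.Quotient.mk ⟨c, ?_⟩, rfl⟩
  rw [mem_ZI, hc']
  exact Submodule.zero_mem _

end

end Q37.FF
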