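import Pool.Agent.Q37.FF.Tens

/-!
# The perturbation argument
-/

set_option autoImplicit false
set_option linter.unusedVariables false

namespace Q37.FF

open IsLocalRing TensorProduct

universe u

section

variable {R A : Type u} [CommRing R] [CommRing A] {H H' : Type u} [AddCommGroup H]
  [Module R H] [AddCommGroup H'] [Module A H'] (F : H →+ H')

/-- The condition `H'[y] ≤ span (y ^ (p - 1) F(H[yR]))`. -/
def Good (p : ℕ) (y : A) (yR : R) : Prop :=
  ∀ h' : H', y • h' = 0 →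
    h' ∈ Submodule.span A {t : H' | ∃ h : H, yR • h = 0 ∧ y ^ (p - 1) • F h = t}

end

section

variable {R A : Type u} [CommRing R] [CommRing A] [Algebra R A] {H H' : Type u} [AddCommGroup H]
  [Module R H] [AddCommGroup H'] [Module A H'] (F : H →+ H')
  (hF : ∀ (r : R) (h : H), F (r • h) = algebraMap R A r • F h)

/-- The map `a ⊗ h ↦ a F(h)`, as a map of groups. -/
noncomputable def L0 : A ⊗[R] H →+ H' :=
  TensorProduct.liftAddHom
    { toFun := fun a => { toFun := fun h => a • F h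
                          map_zero' := by rw [map_zero, smul_zero]
                          map_add' := fun h k => by rw [map_add, smul_add] }
      map_zero' := by ext h; exact zero_smul _ _
      map_add' := fun a b => by ext h; exact add_smul _ _ _ }
    (fun r a h => by
      change (r • a) • F h = a • F (r • h)
      rw [hF, Algebra.smul_def, mul_comm, mul_smul])

theorem L0_tmul (a : A) (h : H) : L0 F hF (a ⊗ₜ[R] h) = a • F h := rfl

/-- The map `a ⊗ h ↦ a F(h)`. -/
noncomputable def L : A ⊗[R] H →ₗ[A] H' where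
  toFun := L0 F hF
  map_add' := map_add _
  map_smul' := by
    intro b t
    rw [RingHom.id_apply]
    induction t using TensorProduct.induction_on with
    | zero => rw [smul_zero, map_zero, smul_zero]
    | tmul a h =>
      rw [TensorProduct.smul_tmul', L0_tmul, L0_tmul, smul_eq_mul, mul_smul]
    | add t s ht hs => rw [smul_add, map_add, ht, hs, map_add, smul_add]

theorem L_tmul (a : A) (h : H) : L F hF (a ⊗ₜ[R] h) = a • F h := rfl

variable {p : ℕ} {y : A} {yR : R}

theorem alg_smul (hy : algebraMap R A yR = y ^ p) (a : A) (h : H) :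
    y ^ p • (a ⊗ₜ[R] h) = a ⊗ₜ[R] (yR • h) := by
  rw [← hy, algebraMap_smul, TensorProduct.smul_tmul', TensorProduct.smul_tmul]

theorem div_G (hy : algebraMap R A yR = y ^ p) (hs : ∀ h : H, ∃ h' : H, yR • h' = h)
    (g : A ⊗[R] H) : ∃ g' : A ⊗[R] H, y ^ p • g' = g := by
  induction g using TensorProduct.induction_on with
  | zero => exact ⟨0, smul_zero _⟩
  | tmul a h =>
    obtain ⟨h', rfl⟩ := hs h
    exact ⟨a ⊗ₜ[R] h', alg_smul hy a h'⟩
  | add t s ht hs' =>
    obtain ⟨t', rfl⟩ := ht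
    obtain ⟨s', rfl⟩ := hs'
    exact ⟨t' + s', smul_add _ _ _⟩

theorem div_G1 (hp : 0 < p) (hy : algebraMap R A yR = y ^ p)
    (hs : ∀ h : H, ∃ h' : H, yR • h' = h) (g : A ⊗[R] H) : ∃ g' : A ⊗[R] H, y • g' = g := by
  obtain ⟨g', rfl⟩ := div_G hy hs g
  obtain ⟨q, rfl⟩ := Nat.exists_eq_add_of_lt hp
  rw [zero_add]
  exact ⟨y ^ q • g', by rw [smul_smul, ← pow_succ']⟩

theorem ker_G (hy : algebraMap R A yR = y ^ p) (hs : ∀ h : H, ∃ h' : H, yR • h' = h)
    (g : A ⊗[R] H) (hg : y ^ p • g = 0) :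
    g ∈ Submodule.span A {t : A ⊗[R] H | ∃ h : H, yR • h = 0 ∧ (1 : A) ⊗ₜ[R] h = t} := by
  set K := LinearMap.ker (LinearMap.lsmul R H yR) with hK
  have hex : Function.Exact K.subtype (LinearMap.lsmul R H yR) := by
    rw [LinearMap.exact_iff, Submodule.range_subtype]
  have h3 := lTensor_exact A hex hs
  have h4 : ∀ t : A ⊗[R] H, LinearMap.lTensor A (LinearMap.lsmul R H yR) t = y ^ p • t := by
    intro t
    induction t using TensorProduct.induction_on with
    | zero => rw [smul_zero, map_zero]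
    | tmul a m =>
      rw [LinearMap.lTensor_tmul, LinearMap.lsmul_apply, alg_smul hy]
    | add t s ht hs => rw [smul_add, map_add, ht, hs]
  obtain ⟨k, rfl⟩ := (h3 g).1 (by rw [h4, hg])
  clear hg
  induction k using TensorProduct.induction_on with
  | zero => rw [map_zero]; exact Submodule.zero_mem _
  | tmul a m =>
    rw [LinearMap.lTensor_tmul]
    have h5 : a ⊗ₜ[R] (K.subtype m) = a • ((1 : A) ⊗ₜ[R] (K.subtype m)) := by
      rw [TensorProduct.smul_tmul', smul_eq_mul, mul_one]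
    rw [h5]
    exact Submodule.smul_mem _ _ (Submodule.subset_span ⟨_, m.2, rfl⟩)
  | add t s ht hs => rw [map_add]; exact Submodule.add_mem _ ht hs

theorem Good_imp (hp : 0 < p) (hy : algebraMap R A yR = y ^ p) (hFF : Good F p y yR) (h' : H')
    (hh : y • h' = 0) : ∃ g : A ⊗[R] H, y • g = 0 ∧ L F hF g = h' := by
  have h1 := hFF h' hh
  clear hh
  induction h1 using Submodule.span_induction with
  | mem t ht =>
    obtain ⟨h, hh, rfl⟩ := ht
    refine ⟨y ^ (p - 1) • ((1 : A) ⊗ₜ[R] h), ?_, ?_⟩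
    · rw [smul_smul, ← pow_succ', Nat.sub_add_cancel hp, alg_smul hy, hh, TensorProduct.tmul_zero]
    · rw [map_smul, L_tmul, one_smul]
  | zero => exact ⟨0, smul_zero _, map_zero _⟩
  | add a b _ _ ha hb =>
    obtain ⟨g, hg, rfl⟩ := ha
    obtain ⟨k, hk, rfl⟩ := hb
    exact ⟨g + k, by rw [smul_add, hg, hk, add_zero], map_add _ _ _⟩
  | smul r a _ ha =>
    obtain ⟨g, hg, rfl⟩ := ha
    exact ⟨r • g, by rw [smul_comm, hg, smul_zero], map_smul _ _ _⟩

theorem Good_of (hp : 0 < p) (hy : algebraMap R A yR = y ^ p)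
    (hs : ∀ h : H, ∃ h' : H, yR • h' = h)
    (hL : ∀ h' : H', y • h' = 0 → ∃ g : A ⊗[R] H, y • g = 0 ∧ L F hF g = h') : Good F p y yR := by
  intro h' hh
  obtain ⟨g, hg, rfl⟩ := hL h' hh
  obtain ⟨g', rfl⟩ : ∃ g' : A ⊗[R] H, y ^ (p - 1) • g' = g := by
    obtain ⟨g', hg'⟩ := div_G hy hs g
    refine ⟨y • g', ?_⟩
    rw [smul_smul, ← pow_succ, Nat.sub_add_cancel hp, hg']
  rw [smul_smul, ← pow_succ', Nat.sub_add_cancel hp] at hg
  have h1 := ker_G hy hs g' hg
  clear hg hh
  induction h1 using Submodule.span_induction with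
  | mem t ht =>
    obtain ⟨h, hh, rfl⟩ := ht
    rw [map_smul, L_tmul, one_smul]
    exact Submodule.subset_span ⟨h, hh, rfl⟩
  | zero => rw [smul_zero, map_zero]; exact Submodule.zero_mem _
  | add a b _ _ ha hb => rw [smul_add, map_add]; exact Submodule.add_mem _ ha hb
  | smul r a _ ha => rw [smul_comm, map_smul]; exact Submodule.smul_mem _ _ ha

theorem L_surj (hp : 0 < p) (hy : algebraMap R A yR = y ^ p)
    (hs : ∀ h : H, ∃ h' : H, yR • h' = h) (ht : ∀ h' : H', ∃ n : ℕ, y ^ n • h' = 0)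
    (hL : ∀ h' : H', y • h' = 0 → ∃ g : A ⊗[R] H, y • g = 0 ∧ L F hF g = h') :
    Function.Surjective (L F hF) := by
  have key : ∀ n : ℕ, ∀ h' : H', y ^ n • h' = 0 → ∃ g, L F hF g = h' := by
    intro n
    induction n with
    | zero =>
      intro h' hh
      rw [pow_zero, one_smul] at hh
      exact ⟨0, by rw [map_zero, hh]⟩
    | succ n ih =>
      intro h' hh
      rw [pow_succ, mul_smul] at hh
      obtain ⟨g, hg⟩ := ih _ hh
      obtain ⟨g', rfl⟩ := div_G1 hp hy hs g
      have h1 : y • (h' - L F hF g') = 0 := by rw [smul_sub, ← hg, map_smul, sub_self]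
      obtain ⟨g1, -, hg1⟩ := hL _ h1
      exact ⟨g1 + g', by rw [map_add, hg1, sub_add_cancel]⟩
  intro h'
  obtain ⟨n, hn⟩ := ht h'
  exact key n h' hn

include hF in
/-- The core of the argument. -/
theorem core [IsNoetherianRing R] [IsLocalRing R] [IsNoetherianRing A] [IsLocalRing A]
    (hA : IsArtinianRing (A ⧸ (maximalIdeal R).map (algebraMap R A))) [IsArtinian R H]
    [IsArtinian A H'] (hp : 0 < p) (τ : A → R) (hτ : ∀ a, algebraMap R A (τ a) = a ^ p) {x : A}
    (hx : x ∈ maximalIdeal A) (hx1 : ∀ h : H, ∃ h' : H, τ x • h' = h)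
    (hx2 : ∀ h : H', ∃ h' : H', x • h' = h) (hFF : Good F p x (τ x)) :
    ∃ N : ℕ, ∀ δ ∈ maximalIdeal A ^ N, (∀ h : H', ∃ h' : H', (x + δ) • h' = h) ∧
      ((∀ h : H, ∃ h' : H, τ (x + δ) • h' = h) → Good F p (x + δ) (τ (x + δ))) := by
  have hG : IsArtinian A (A ⊗[R] H) := tens_artinian hA H
  have hL := Good_imp F hF hp (hτ x) hFF
  have hLs := L_surj F hF hp (hτ x) hx1 (fun h' => exists_pow_smul_eq_zero hx h') hL
  have hW : ∀ w : LinearMap.ker (L F hF), ∃ w' : LinearMap.ker (L F hF), x • w' = w := by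
    intro w
    obtain ⟨g, hg⟩ := div_G1 hp (hτ x) hx1 (w : A ⊗[R] H)
    have h1 : x • L F hF g = 0 := by rw [← map_smul, hg]; exact w.2
    obtain ⟨g1, hg1, hg2⟩ := hL _ h1
    refine ⟨⟨g - g1, ?_⟩, ?_⟩
    · rw [LinearMap.mem_ker, map_sub, hg2, sub_self]
    · apply Subtype.ext
      change x • (g - g1) = (w : A ⊗[R] H)
      rw [smul_sub, hg1, sub_zero, hg]
  obtain ⟨N1, hN1⟩ := pert x H' hx2
  obtain ⟨N2, hN2⟩ := pert x (LinearMap.ker (L F hF)) hW
  refine ⟨max N1 N2, fun δ hδ => ⟨hN1 δ (Ideal.pow_le_pow_right (le_max_left N1 N2) hδ),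
    fun hs => ?_⟩⟩
  have hW' := hN2 δ (Ideal.pow_le_pow_right (le_max_right N1 N2) hδ)
  apply Good_of F hF hp (hτ _) hs
  intro h' hh
  obtain ⟨g, rfl⟩ := hLs h'
  rw [← map_smul] at hh
  obtain ⟨w, hw⟩ := hW' ⟨(x + δ) • g, hh⟩
  have hw' : (x + δ) • (w : A ⊗[R] H) = (x + δ) • g := congrArg Subtype.val hw
  refine ⟨g - w, ?_, ?_⟩
  · rw [smul_sub, hw', sub_self]
  · rw [map_sub, LinearMap.mem_ker.1 w.2, sub_zero]

end

end Q37.FF
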