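import Pool.Agent.Q43.FC.Exact

/-!
# F-full local rings

For a sequence `w : Fin d → A` of elements of a commutative ring `A` (files
`Pool/Agent/Q43/FC/Defs.lean`, `Pool/Agent/Q43/FC/Exact.lean`):

* `Loc w S` is the localization of `A` at `∏ k ∈ S, w k`, for a set `S` of indices;
* `Co w id` is the module of all families `(c S)`, `c S ∈ Loc w S`, and `D w monotone_id 1` is the
  Cech differential, `(D c) S = ∑ k ∈ S, (-1)^(number of l ∈ S with l < k) • c (S \ {k})`;
* `Z w monotone_id 1 i` and `B w monotone_id 1 i` are the cocycles and the coboundaries of degree
  `i`, the cochains of degree `i` being the families with `c S = 0` for all `S` of size `≠ i`.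
-/

set_option autoImplicit false

namespace Q37.FF

open Q43.FC IsLocalRing

universe u

/-- The cocycles of degree `i` of the Cech complex of `w`. -/
noncomputable def cocycles {A : Type u} [CommRing A] {d : ℕ} (w : Fin d → A) (i : ℕ) :
    Submodule A (Co w id) := Z w monotone_id 1 i

/-- The coboundaries of degree `i` of the Cech complex of `w`. -/
noncomputable def coboundaries {A : Type u} [CommRing A] {d : ℕ} (w : Fin d → A) (i : ℕ) :
    Submodule A (Co w id) := B w monotone_id 1 i

/-- For every `i`, the `A`-submodule of `H^i_w(A)` (the `i`-th cohomology of the Cech complex of `w`)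
generated by the image of the Frobenius `F` is all of `H^i_w(A)`. Here `F` is induced by the `p`-th
power on the components of the cochains. -/
def FullFor (p : ℕ) {A : Type u} [CommRing A] {d : ℕ} (w : Fin d → A) : Prop :=
  ∀ i : ℕ, cocycles w i ≤
    Submodule.span A {c : Co w id | ∃ c' ∈ cocycles w i, c = fun S => c' S ^ p} ⊔ coboundaries w i

/-- The ring `A` is local and `F`-full: for every finite family `w` of elements of `A` such that
the radical of the ideal `(w)` is the maximal ideal, and every `i`, the local cohomology module
`H^i_m(A) = H^i_w(A)` is generated by the image of its Frobenius. -/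
def IsFFull (p : ℕ) (A : Type u) [CommRing A] : Prop :=
  ∃ _ : IsLocalRing A, ∀ (d : ℕ) (w : Fin d → A),
    (Ideal.span (Set.range w)).radical = maximalIdeal A → FullFor p w

end Q37.FF
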