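import Pool.Agent.Q37.FF.Coh
import Pool.Agent.Q37.FF.Stmt

/-!
# Total and graded cohomology
-/

set_option autoImplicit false
set_option linter.unusedVariables false
set_option linter.unusedSectionVars false

namespace Q37.FF

open Q43.FC Finset IsLocalRing

universe u

section

variable {R : Type u} [CommRing R] {d : ℕ} (w : Fin d → R)

/-- The component of degree `i`. -/
noncomputable def pr (i : ℕ) : Co w id →ₗ[R] Co w id where
  toFun c S := if S.card = i then c S else 0
  map_add' c c' := by
    funext S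
    simp only [Pi.add_apply]
    split_ifs <;> simp
  map_smul' r c := by
    funext S
    simp only [Pi.smul_apply, RingHom.id_apply]
    split_ifs <;> simp

variable {w}

theorem pr_pos {i : ℕ} (c : Co w id) {S : Finset (Fin d)} (h : S.card = i) : pr w i c S = c S :=
  if_pos h

theorem pr_neg {i : ℕ} (c : Co w id) {S : Finset (Fin d)} (h : S.card ≠ i) : pr w i c S = 0 :=
  if_neg h

theorem pr_mem_Deg (i : ℕ) (c : Co w id) : pr w i c ∈ Deg w id i := fun S hS => pr_neg c hS

theorem pr_of_Deg {i : ℕ} {c : Co w id} (h : c ∈ Deg w id i) : pr w i c = c := by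
  funext S
  by_cases hS : S.card = i
  · exact pr_pos c hS
  · rw [pr_neg c hS, h S hS]

theorem D_pr (i : ℕ) (c : Co w id) : DD w (pr w i c) = pr w (i + 1) (DD w c) := by
  funext S
  by_cases hS : S.card = i + 1
  · rw [pr_pos _ hS, DD_apply, DD_apply]
    apply sum_congr rfl
    intro k hk
    rw [pr_pos _ (by rw [card_erase_of_mem hk, hS, Nat.add_sub_cancel])]
  · rw [pr_neg _ hS, DD_apply]
    apply sum_eq_zero
    intro k hk
    rw [pr_neg c (by
      intro h
      apply hS
      rw [← card_erase_add_one hk, h]), map_zero, smul_zero]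

theorem pr_zero_D (c : Co w id) : pr w 0 (DD w c) = 0 := by
  funext S
  by_cases hS : S.card = 0
  · rw [pr_pos _ hS]
    rw [card_eq_zero] at hS
    subst hS
    rw [DD_apply, sum_empty]
    rfl
  · exact pr_neg _ hS

theorem sum_pr (c : Co w id) : c = ∑ i ∈ range (d + 1), pr w i c := by
  funext S
  have h1 : S.card ∈ range (d + 1) := by
    rw [mem_range]
    have := card_le_univ S
    rw [Fintype.card_fin] at this
    omega
  rw [Finset.sum_apply, sum_eq_single S.card]
  · exact (pr_pos c rfl).symm
  · intro i _ hi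
    exact pr_neg c (Ne.symm hi)
  · exact fun h => absurd h1 h

variable (p : ℕ) [hp : Fact p.Prime] [CharP R p]

theorem pr_Fr (i : ℕ) (c : Co w id) : pr w i ((cech p w).Fr c) = (cech p w).Fr (pr w i c) := by
  rw [cech_Fr, cech_Fr]
  funext S
  by_cases hS : S.card = i
  · rw [pr_pos _ hS, pr_pos _ hS]
  · rw [pr_neg _ hS, pr_neg _ hS, zero_pow hp.out.ne_zero]

theorem mem_coc {i : ℕ} {c : Co w id} : c ∈ cocycles w i ↔ c ∈ Deg w id i ∧ DD w c = 0 := Iff.rfl

theorem full_of_fullFor (h : FullFor p w) : Full (cech p w) := by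
  intro c hc
  have hc' : DD w c = 0 := hc
  rw [sum_pr c]
  apply Submodule.sum_mem
  intro i _
  have h1 : pr w i c ∈ cocycles w i := by
    rw [mem_coc]
    refine ⟨pr_mem_Deg i c, ?_⟩
    rw [D_pr, hc', map_zero]
  have h2 : Submodule.span R {c : Co w id | ∃ c' ∈ cocycles w i, c = fun S => c' S ^ p} ⊔
      coboundaries w i ≤ Submodule.span R {t : Co w id | ∃ c', (cech p w).D c' = 0 ∧
        (cech p w).Fr c' = t} ⊔ LinearMap.range (cech p w).D := by
    apply sup_le_sup
    · apply Submodule.span_mono
      rintro _ ⟨c', hc', rfl⟩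
      exact ⟨c', hc'.2, rfl⟩
    · rintro _ ⟨b, hb, rfl⟩
      exact ⟨b, rfl⟩
  exact h2 (h i h1)

theorem fullFor_of_full (h : Full (cech p w)) : FullFor p w := by
  intro i c hc
  have h1 := h c hc.2
  have h2 : Submodule.span R {t : Co w id | ∃ c', (cech p w).D c' = 0 ∧ (cech p w).Fr c' = t} ⊔
      LinearMap.range (cech p w).D ≤ (Submodule.span R {c : Co w id | ∃ c' ∈ cocycles w i,
        c = fun S => c' S ^ p} ⊔ coboundaries w i).comap (pr w i) := by
    apply sup_le
    · rw [Submodule.span_le]
      rintro _ ⟨c', hc', rfl⟩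
      rw [SetLike.mem_coe, Submodule.mem_comap, pr_Fr]
      refine Submodule.mem_sup_left (Submodule.subset_span ⟨pr w i c', ?_, rfl⟩)
      rw [mem_coc]
      refine ⟨pr_mem_Deg i c', ?_⟩
      have h3 : DD w c' = 0 := hc'
      rw [D_pr, h3, map_zero]
    · rintro _ ⟨b, rfl⟩
      rw [Submodule.mem_comap]
      apply Submodule.mem_sup_right
      change pr w i (DD w b) ∈ coboundaries w i
      cases i with
      | zero =>
        rw [pr_zero_D]
        exact Submodule.zero_mem _
      | succ s =>
        rw [← D_pr]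
        exact ⟨pr w s b, mem_Pre_succ.2 (pr_mem_Deg s b), rfl⟩
  have h3 := h2 h1
  rw [Submodule.mem_comap, pr_of_Deg hc.1] at h3
  exact h3

end

end Q37.FF
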