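import Pool.Agent.Q37.FF.Core

/-!
# The core statement for the Frobenius
-/

set_option autoImplicit false
set_option linter.unusedVariables false

namespace Q37.FF

open IsLocalRing TensorProduct

universe u

variable {R : Type u} [CommRing R] [IsNoetherianRing R] [IsLocalRing R]

theorem artinian_quot {J : Ideal R} (hJ : J ≤ maximalIdeal R)
    (hr : maximalIdeal R ≤ J.radical) : IsArtinianRing (R ⧸ J) := by
  obtain ⟨k, hk⟩ := Ideal.exists_pow_le_of_le_radical_of_fg hr (IsNoetherian.noetherian _)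
  have hnt : Nontrivial (R ⧸ J) := by
    rw [Ideal.Quotient.nontrivial_iff]
    intro h
    rw [h, top_le_iff] at hJ
    exact (maximalIdeal.isMaximal R).ne_top hJ
  have hloc : IsLocalRing (R ⧸ J) := IsLocalRing.of_surjective' _ Ideal.Quotient.mk_surjective
  rw [isArtinianRing_iff_isNilpotent_maximalIdeal]
  refine ⟨k, ?_⟩
  have h1 : maximalIdeal (R ⧸ J) ≤ (maximalIdeal R).map (Ideal.Quotient.mk J) := by
    intro z hz
    obtain ⟨z, rfl⟩ := Ideal.Quotient.mk_surjective z
    apply Ideal.mem_map_of_mem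
    rw [mem_maximalIdeal] at hz ⊢
    exact fun h => hz (h.map _)
  have h2 : maximalIdeal (R ⧸ J) ^ k ≤ ⊥ := by
    refine (Ideal.pow_right_mono h1 k).trans ?_
    rw [← Ideal.map_pow, Ideal.map_le_iff_le_comap]
    intro z hz
    rw [Ideal.mem_comap, Ideal.mem_bot, Ideal.Quotient.eq_zero_iff_mem]
    exact hk hz
  exact le_bot_iff.1 h2

theorem core_frob (p : ℕ) [hp : Fact p.Prime] [CharP R p] {H : Type u} [AddCommGroup H] [Module R H]
    [IsArtinian R H] (F : H →+ H) (hF : ∀ (r : R) (h : H), F (r • h) = r ^ p • F h) {x : R}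
    (hx : x ∈ maximalIdeal R) (hxH : ∀ h : H, ∃ h' : H, x • h' = h) (hG : Good F p x x) :
    ∃ N : ℕ, ∀ δ ∈ maximalIdeal R ^ N, (∀ h : H, ∃ h' : H, (x + δ) • h' = h) ∧
      Good F p (x + δ) (x + δ) := by
  have hA : IsArtinianRing (R ⧸ (maximalIdeal R).map (frobenius R p)) := by
    apply artinian_quot
    · rw [Ideal.map_le_iff_le_comap]
      intro z hz
      rw [Ideal.mem_comap, frobenius_def]
      exact Ideal.pow_mem_of_mem _ hz p hp.out.pos
    · intro z hz
      exact ⟨p, Ideal.mem_map_of_mem (frobenius R p) hz⟩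
  obtain ⟨N, hN⟩ := @core R R _ _ (frobenius R p).toAlgebra H H _ _ _ _ F hF p _ _ _ _ hA _ _
    hp.out.pos id (fun a => rfl) x hx hxH hxH hG
  exact ⟨N, fun δ hδ => ⟨(hN δ hδ).1, (hN δ hδ).2 (hN δ hδ).1⟩⟩

end Q37.FF
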