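import Pool.Agent.Q37.FF.Main

/-!
# Independence of the family
-/

set_option autoImplicit false
set_option linter.unusedVariables false
set_option linter.unusedSectionVars false

namespace Q37.FF

open Q43.FC Finset

universe u

section

variable {R : Type u} [CommRing R] {d : ℕ} (W : Fin (d + 1) → R) (j : Fin (d + 1))

/-- The restriction to the components without `j`. -/
noncomputable abbrev th : Co W id →+ Co (fun k => W (j.succAbove k)) id :=
  theta (RingHom.id R) (Fin.succAboveOrderEmb j) (w := W) (fun _ => rfl)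

variable {W j}

theorem notMem_map (S : Finset (Fin d)) : j ∉ S.map (Fin.succAboveOrderEmb j).toEmbedding := by
  rw [mem_map]
  rintro ⟨k, _, hk⟩
  exact Fin.succAbove_ne j k hk

theorem th_apply (c : Co W id) {T : Finset (Fin (d + 1))} {S : Finset (Fin d)}
    (h : S.map (Fin.succAboveOrderEmb j).toEmbedding = T) :
    th W j c S = lf (RingHom.id R) (Fin.succAboveOrderEmb j) (w := W)
      (w' := fun k => W (j.succAbove k)) (fun _ => rfl) T S h (c T) :=
  theta_apply _ _ _ _ h

theorem th_zero {c : Co W id} (h : ∀ T, j ∉ T → (c T : Loc W T) = 0) : th W j c = 0 := by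
  funext S
  rw [th_apply c rfl]
  have h1 := h _ (notMem_map (j := j) S)
  have h2 : ∀ v : Loc W (S.map (Fin.succAboveOrderEmb j).toEmbedding), v = 0 →
      lf (RingHom.id R) (Fin.succAboveOrderEmb j) (w := W) (w' := fun k => W (j.succAbove k))
        (fun _ => rfl) _ S rfl v = 0 := by
    rintro v rfl
    exact map_zero _
  exact h2 _ h1

theorem comp_zero {c : Co W id} (h : th W j c = 0) {T : Finset (Fin (d + 1))} (hT : j ∉ T) :
    (c T : Loc W T) = 0 := by
  have h1 : (univ.filter fun k : Fin d => j.succAbove k ∈ T).map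
      (Fin.succAboveOrderEmb j).toEmbedding = T := by
    ext k
    rw [mem_map]
    constructor
    · rintro ⟨l, hl, rfl⟩
      exact (mem_filter.1 hl).2
    · intro hk
      have hkj : k ≠ j := fun he => hT (he ▸ hk)
      obtain ⟨l, rfl⟩ := Fin.exists_succAbove_eq hkj
      exact ⟨l, mem_filter.2 ⟨mem_univ _, hk⟩, rfl⟩
  have h2 := congrFun h (univ.filter fun k : Fin d => j.succAbove k ∈ T)
  rw [th_apply c h1] at h2
  obtain ⟨z, hz⟩ := lf_ker (RingHom.id R) (Fin.succAboveOrderEmb j) (w := W)
    (w' := fun k => W (j.succAbove k)) (fun _ => rfl) (y := 0)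
    (fun a ha => ⟨0, by rw [mul_zero]; exact ha⟩) h1 h2
  rw [zero_smul] at hz
  exact hz

theorem unit_j {T : Finset (Fin (d + 1))} (hT : j ∈ T) (n : ℕ) :
    IsUnit (algebraMap R (Loc W T) (W j ^ n)) := by
  rw [map_pow]
  have h4 := isUnit_prod W (S := {j}) (T := T) (singleton_subset_iff.2 hT)
  rw [prod_singleton] at h4
  exact h4.pow n

theorem div_ker (n : ℕ) {c : Co W id} (h : th W j c = 0) :
    ∃ b : Co W id, th W j b = 0 ∧ W j ^ n • b = c := by
  have h1 : ∀ (T : Finset (Fin (d + 1))) (v : Loc W T), (j ∉ T → v = 0) →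
      ∃ z : Loc W T, W j ^ n • z = v ∧ (j ∉ T → z = 0) := by
    intro T v hv
    by_cases hT : j ∈ T
    · obtain ⟨u, hu⟩ := unit_j (W := W) hT n
      refine ⟨↑u⁻¹ * v, ?_, fun h => absurd hT h⟩
      rw [Algebra.smul_def, ← hu, Units.mul_inv_cancel_left]
    · exact ⟨0, by rw [smul_zero, hv hT], fun _ => rfl⟩
  choose z hz hz' using fun T => h1 T (c T) (fun hT => comp_zero h hT)
  exact ⟨z, th_zero hz', funext hz⟩

theorem cancel_ker (n : ℕ) {c : Co W id} (h : th W j c = 0) (h' : W j ^ n • c = 0) : c = 0 := by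
  funext T
  by_cases hT : j ∈ T
  · have h1 : ∀ v : Loc W T, W j ^ n • v = 0 → v = 0 := by
      intro v hv
      rw [Algebra.smul_def] at hv
      exact ((unit_j (W := W) hT n).mul_right_eq_zero).1 hv
    exact h1 (c T) (congrFun h' T)
  · exact comp_zero h hT

theorem th_smul (r : R) (c : Co W id) : th W j (r • c) = r • th W j c :=
  theta_smul (RingHom.id R) _ _ r c

theorem th_D (c : Co W id) : th W j (DD W c) = DD _ (th W j c) :=
  theta_D (RingHom.id R) _ _ c

theorem th_surj : Function.Surjective (th W j) :=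
  theta_surj (RingHom.id R) _ _ Function.surjective_id

theorem CI_bot_eq {n : ℕ} (w : Fin n → R) : CI w (⊥ : Ideal R) = ⊥ := by
  rw [eq_bot_iff]
  intro c hc
  exact CI_bot hc

/-- The kernel of the restriction is acyclic. -/
theorem acyc (hW : W j ∈ (Ideal.span (Set.range fun k => W (j.succAbove k))).radical)
    {c : Co W id} (h : th W j c = 0) (hD : DD W c = 0) : ∃ b, th W j b = 0 ∧ DD W b = c := by
  obtain ⟨n, hn⟩ := tors_w (I := ⊥) j (c := c) (by rw [hD]; exact Submodule.zero_mem _)
  rw [CI_bot_eq, sup_bot_eq] at hn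
  obtain ⟨b, hb⟩ := hn
  have h1 : DD _ (th W j b) = 0 := by rw [← th_D, hb, th_smul, h, smul_zero]
  obtain ⟨k, hk⟩ := tors_rad (I := ⊥) hW (c := th W j b) (by rw [h1]; exact Submodule.zero_mem _)
  rw [BI, CI_bot_eq, sup_bot_eq] at hk
  obtain ⟨e, he⟩ := hk
  obtain ⟨e, rfl⟩ := th_surj e
  have h2 : th W j (W j ^ k • b - DD W e) = 0 := by
    rw [map_sub, th_smul, th_D, he, sub_self]
  have h3 : DD W (W j ^ k • b - DD W e) = W j ^ (k + n) • c := by
    rw [map_sub, map_smul, D_D, sub_zero, hb, smul_smul, ← pow_add]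
  obtain ⟨b', hb', hb''⟩ := div_ker (k + n) h2
  refine ⟨b', hb', ?_⟩
  rw [← sub_eq_zero]
  apply cancel_ker (j := j) (k + n)
  · rw [map_sub, th_D, hb', h, map_zero, sub_zero]
  · rw [smul_sub, ← map_smul, hb'', h3, sub_self]

/-- Lifting cocycles. -/
theorem lift_coc (hW : W j ∈ (Ideal.span (Set.range fun k => W (j.succAbove k))).radical)
    (c : Co (fun k => W (j.succAbove k)) id) (hc : DD _ c = 0) :
    ∃ c', th W j c' = c ∧ DD W c' = 0 := by
  obtain ⟨c', rfl⟩ := th_surj c
  have h1 : th W j (DD W c') = 0 := by rw [th_D, hc]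
  obtain ⟨b, hb, hb'⟩ := acyc hW h1 (D_D W monotone_id 1 c')
  refine ⟨c' - b, ?_, ?_⟩
  · rw [map_sub, hb, sub_zero]
  · rw [map_sub, hb', sub_self]

variable (p : ℕ) [hp : Fact p.Prime] [CharP R p]

theorem full_insert (hW : W j ∈ (Ideal.span (Set.range fun k => W (j.succAbove k))).radical) :
    Full (cech p W) ↔ Full (cech p fun k => W (j.succAbove k)) := by
  constructor
  · intro hF c hc
    obtain ⟨c', rfl, hc'⟩ := lift_coc hW c hc
    let T : Submodule R (Co W id) :=
      { carrier := {t | th W j t ∈ Submodule.span R {t | ∃ c', (cech p fun k => W (j.succAbove k)).D c'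
          = 0 ∧ (cech p fun k => W (j.succAbove k)).Fr c' = t} ⊔
          LinearMap.range (cech p fun k => W (j.succAbove k)).D}
        zero_mem' := by
          rw [Set.mem_ofPred_eq, map_zero]
          exact Submodule.zero_mem _
        add_mem' := by
          intro a b ha hb
          rw [Set.mem_ofPred_eq, map_add]
          exact Submodule.add_mem _ ha hb
        smul_mem' := by
          intro r a ha
          rw [Set.mem_ofPred_eq, th_smul]
          exact Submodule.smul_mem _ _ ha }
    have h1 : Submodule.span R {t | ∃ c', (cech p W).D c' = 0 ∧ (cech p W).Fr c' = t} ⊔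
        LinearMap.range (cech p W).D ≤ T := by
      apply sup_le
      · rw [Submodule.span_le]
        rintro _ ⟨a, ha, rfl⟩
        refine Submodule.mem_sup_left (Submodule.subset_span ⟨th W j a, ?_, ?_⟩)
        · have h2 := th_D (j := j) a
          have h3 : DD W a = 0 := ha
          rw [h3, map_zero] at h2
          exact h2.symm
        · exact (theta_Fr (RingHom.id R) _ _ p a).symm
      · rintro _ ⟨b, rfl⟩
        exact Submodule.mem_sup_right ⟨th W j b, (th_D b).symm⟩
    exact h1 (hF c' hc')
  · intro hF c hc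
    have hc' : DD W c = 0 := hc
    have h0 : DD _ (th W j c) = 0 := by rw [← th_D, hc', map_zero]
    set N := Submodule.span R {t | ∃ c', (cech p W).D c' = 0 ∧ (cech p W).Fr c' = t} ⊔
      LinearMap.range (cech p W).D with hN
    have hND : ∀ n ∈ N, DD W n = 0 := by
      have h1 : N ≤ LinearMap.ker (DD W) := by
        apply sup_le
        · rw [Submodule.span_le]
          rintro _ ⟨a, ha, rfl⟩
          have h2 := (cech p W).Fr_D a
          rw [ha, map_zero] at h2
          exact h2.symm
        · rintro _ ⟨b, rfl⟩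
          exact D_D W monotone_id 1 b
      exact fun n hn => h1 hn
    let T : Submodule R (Co (fun k => W (j.succAbove k)) id) :=
      { carrier := {t | ∃ n ∈ N, th W j n = t}
        zero_mem' := ⟨0, Submodule.zero_mem _, map_zero _⟩
        add_mem' := by
          rintro _ _ ⟨n, hn, rfl⟩ ⟨m, hm, rfl⟩
          exact ⟨n + m, Submodule.add_mem _ hn hm, map_add _ _ _⟩
        smul_mem' := by
          rintro r _ ⟨n, hn, rfl⟩
          exact ⟨r • n, Submodule.smul_mem _ _ hn, th_smul _ _⟩ }
    have h1 : Submodule.span R {t | ∃ c', (cech p fun k => W (j.succAbove k)).D c'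
          = 0 ∧ (cech p fun k => W (j.succAbove k)).Fr c' = t} ⊔
          LinearMap.range (cech p fun k => W (j.succAbove k)).D ≤ T := by
      apply sup_le
      · rw [Submodule.span_le]
        rintro _ ⟨a, ha, rfl⟩
        obtain ⟨a', rfl, ha'⟩ := lift_coc hW a ha
        exact ⟨(cech p W).Fr a', Submodule.mem_sup_left (Submodule.subset_span ⟨a', ha', rfl⟩),
          theta_Fr (RingHom.id R) _ _ p a'⟩
      · rintro _ ⟨b, rfl⟩
        obtain ⟨b, rfl⟩ := th_surj b
        exact ⟨DD W b, Submodule.mem_sup_right ⟨b, rfl⟩, th_D b⟩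
    obtain ⟨n, hn, hn'⟩ := h1 (hF _ h0)
    have h2 : th W j (c - n) = 0 := by rw [map_sub, hn', sub_self]
    have h3 : DD W (c - n) = 0 := by rw [map_sub, hc', hND n hn, sub_self]
    obtain ⟨b, -, hb⟩ := acyc hW h2 h3
    have h4 : c = n + DD W b := by rw [hb, add_sub_cancel]
    rw [h4]
    exact Submodule.add_mem _ hn (Submodule.mem_sup_right ⟨b, rfl⟩)

theorem fullFor_insert (hW : W j ∈ (Ideal.span (Set.range fun k => W (j.succAbove k))).radical) :
    FullFor p W ↔ FullFor p fun k => W (j.succAbove k) :=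
  ⟨fun h => fullFor_of_full p ((full_insert p hW).1 (full_of_fullFor p h)),
    fun h => fullFor_of_full p ((full_insert p hW).2 (full_of_fullFor p h))⟩

end

section Lists

variable {R : Type u} [CommRing R] (p : ℕ) [hp : Fact p.Prime] [CharP R p]

omit hp [CharP R p] in
theorem fullFor_congr {n m : ℕ} {w : Fin n → R} {w' : Fin m → R} (h : List.ofFn w = List.ofFn w') :
    FullFor p w ↔ FullFor p w' := by
  rw [List.ofFn_inj'] at h
  have h1 : ∀ s t : (Σ n, Fin n → R), s = t → (FullFor p s.2 ↔ FullFor p t.2) := by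
    rintro s t rfl
    rfl
  exact h1 ⟨n, w⟩ ⟨m, w'⟩ h

theorem fullFor_cons {n : ℕ} (w : Fin n → R) {v : R}
    (hv : v ∈ (Ideal.span (Set.range w)).radical) :
    FullFor p (Fin.cons v w : Fin (n + 1) → R) ↔ FullFor p w :=
  fullFor_insert p (W := Fin.cons v w) (j := 0) hv

theorem fullFor_snoc {n : ℕ} (w : Fin n → R) {v : R}
    (hv : v ∈ (Ideal.span (Set.range w)).radical) :
    FullFor p (Fin.snoc w v : Fin (n + 1) → R) ↔ FullFor p w := by
  have h1 : (fun k => (Fin.snoc w v : Fin (n + 1) → R) ((Fin.last n).succAbove k)) = w := by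
    funext k
    rw [Fin.succAbove_last, Fin.snoc_castSucc]
  have h2 := fullFor_insert p (W := (Fin.snoc w v : Fin (n + 1) → R)) (j := Fin.last n) (by
    rw [h1, Fin.snoc_last]
    exact hv)
  rwa [h1] at h2

/-- `FullFor` for a list. -/
def QL (l : List R) : Prop := FullFor p l.get

omit hp [CharP R p] in
theorem QL_ofFn {n : ℕ} (w : Fin n → R) : QL p (List.ofFn w) ↔ FullFor p w := by
  apply fullFor_congr
  rw [List.ofFn_get]

theorem QL_cons (l : List R) {v : R} (hv : v ∈ (Ideal.span {a | a ∈ l}).radical) :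
    QL p (v :: l) ↔ QL p l := by
  have h1 : v :: l = List.ofFn (Fin.cons v l.get : Fin (l.length + 1) → R) := by
    rw [List.ofFn_cons, List.ofFn_get]
  rw [h1, QL_ofFn, fullFor_cons]
  · rfl
  · rw [Set.range_list_get]
    exact hv

theorem QL_snoc (l : List R) {v : R} (hv : v ∈ (Ideal.span {a | a ∈ l}).radical) :
    QL p (l ++ [v]) ↔ QL p l := by
  have h1 : l ++ [v] = List.ofFn (Fin.snoc l.get v : Fin (l.length + 1) → R) := by
    rw [List.ofFn_succ']
    simp only [Fin.snoc_castSucc, Fin.snoc_last, List.ofFn_get, List.concat_eq_append]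
  rw [h1, QL_ofFn, fullFor_snoc]
  · rfl
  · rw [Set.range_list_get]
    exact hv

theorem QL_append_left (l : List R) (l' : List R)
    (h : ∀ v ∈ l', v ∈ (Ideal.span {a | a ∈ l}).radical) : QL p (l' ++ l) ↔ QL p l := by
  induction l' with
  | nil => rfl
  | cons v l' ih =>
    rw [List.cons_append, QL_cons, ih (fun a ha => h a (List.mem_cons_of_mem _ ha))]
    refine Ideal.radical_mono (Ideal.span_mono ?_) (h v List.mem_cons_self)
    intro a ha
    exact List.mem_append_right _ ha

theorem QL_append_right (l : List R) (l' : List R)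
    (h : ∀ v ∈ l', v ∈ (Ideal.span {a | a ∈ l}).radical) : QL p (l ++ l') ↔ QL p l := by
  induction l' using List.reverseRecOn with
  | nil => rw [List.append_nil]
  | append_singleton l' v ih =>
    rw [← List.append_assoc, QL_snoc, ih (fun a ha => h a (List.mem_append_left _ ha))]
    refine Ideal.radical_mono (Ideal.span_mono ?_) (h v (List.mem_append_right _ (List.mem_singleton_self v)))
    intro a ha
    exact List.mem_append_left _ ha

/-- Independence of the family. -/
theorem fullFor_indep {n m : ℕ} {w : Fin n → R} {w' : Fin m → R}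
    (h : (Ideal.span (Set.range w)).radical = (Ideal.span (Set.range w')).radical)
    (hw : FullFor p w) : FullFor p w' := by
  have e1 : {a | a ∈ List.ofFn w} = Set.range w := by
    ext a
    rw [Set.mem_ofPred_eq, List.mem_ofFn]
    rfl
  have e2 : {a | a ∈ List.ofFn w'} = Set.range w' := by
    ext a
    rw [Set.mem_ofPred_eq, List.mem_ofFn]
    rfl
  rw [← QL_ofFn] at hw ⊢
  rw [← QL_append_right p (List.ofFn w) (List.ofFn w')] at hw
  · rw [← QL_append_left p (List.ofFn w') (List.ofFn w)]
    · exact hw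
    · intro v hv
      rw [e2, ← h]
      apply Ideal.le_radical
      apply Ideal.subset_span
      rw [← e1]
      exact hv
  · intro v hv
    rw [e1, h]
    apply Ideal.le_radical
    apply Ideal.subset_span
    rw [← e2]
    exact hv

end Lists

end Q37.FF
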