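import Pool.Agent.Q37.FF.Deg

/-!
# The assembly
-/

set_option autoImplicit false
set_option linter.unusedVariables false
set_option linter.unusedSectionVars false

namespace Q37.FF

open Q43.FC IsLocalRing

universe u

section

variable {R : Type u} [CommRing R]

/-- `F`-fullness modulo `x` makes `x` surjective. -/
theorem surj_of_good {p : ℕ} [hp : Fact p.Prime] {H : Type u} [AddCommGroup H] [Module R H]
    (F : H →+ H) (hF : ∀ (r : R) (h : H), F (r • h) = r ^ p • F h) {x : R} (hG : Good F p x x)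
    (ht : ∀ h : H, ∃ n : ℕ, x ^ n • h = 0) (h : H) : ∃ h' : H, x • h' = h := by
  have key : ∀ (n : ℕ) (h : H), x • h = 0 → ∃ h' : H, x ^ n • h' = h := by
    intro n
    induction n with
    | zero => exact fun h _ => ⟨h, by rw [pow_zero, one_smul]⟩
    | succ n ih =>
      intro h hh
      have h1 := hG h hh
      clear hh
      induction h1 using Submodule.span_induction with
      | mem t ht =>
        obtain ⟨k, hk, rfl⟩ := ht
        obtain ⟨k', rfl⟩ := ih k hk
        rw [hF, smul_smul, ← pow_mul, ← pow_add]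
        have h2 : n + 1 ≤ p - 1 + n * p := by
          have h3 := hp.out.two_le
          have h4 : n ≤ n * p := Nat.le_mul_of_pos_right n (by omega)
          omega
        obtain ⟨m, hm⟩ := Nat.exists_eq_add_of_le h2
        exact ⟨x ^ m • F k', by rw [hm, smul_smul, ← pow_add]⟩
      | zero => exact ⟨0, smul_zero _⟩
      | add a b _ _ ha hb =>
        obtain ⟨a', rfl⟩ := ha
        obtain ⟨b', rfl⟩ := hb
        exact ⟨a' + b', smul_add _ _ _⟩
      | smul r a _ ha =>
        obtain ⟨a', rfl⟩ := ha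
        exact ⟨r • a', smul_comm _ _ _⟩
  have key2 : ∀ (n : ℕ) (h : H), x ^ n • h = 0 → ∃ h' : H, x • h' = h := by
    intro n
    induction n with
    | zero =>
      intro h hh
      rw [pow_zero, one_smul] at hh
      exact ⟨0, by rw [smul_zero, hh]⟩
    | succ n ih =>
      intro h hh
      obtain ⟨h', hh'⟩ := key (n + 1) (x ^ n • h) (by rw [smul_smul, ← pow_succ', hh])
      obtain ⟨k, hk⟩ := ih (h - x • h') (by
        rw [smul_sub, smul_smul, ← pow_succ, hh', sub_self])
      exact ⟨h' + k, by rw [smul_add, hk, add_sub_cancel]⟩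
  obtain ⟨n, hn⟩ := ht h
  exact key2 n h hn

variable [IsLocalRing R] [IsNoetherianRing R]

/-- Perturbations of non-zero-divisors. -/
theorem pert_nzd {x : R} (hx : ∀ a : R, x * a = 0 → a = 0) :
    ∃ N : ℕ, ∀ δ ∈ maximalIdeal R ^ N, ∀ a : R, (x + δ) * a = 0 → a = 0 := by
  have h1 : ∀ P : associatedPrimes R R, ∃ N : ℕ, ∀ δ ∈ maximalIdeal R ^ N, x + δ ∉ (P : Ideal R) := by
    intro P
    apply krull_pert
    intro hP
    have h2 : x ∈ ⋃ p ∈ associatedPrimes R R, (p : Set R) := Set.mem_biUnion P.2 hP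
    rw [biUnion_associatedPrimes_eq_zero_divisors] at h2
    obtain ⟨a, ha, ha'⟩ := h2
    exact ha (hx a ha')
  choose N hN using h1
  have hfin : Finite (associatedPrimes R R) := (associatedPrimes.finite R R).to_subtype
  have := Fintype.ofFinite (associatedPrimes R R)
  refine ⟨∑ P, N P, fun δ hδ a ha => ?_⟩
  by_contra hne
  have h2 : x + δ ∈ ⋃ p ∈ associatedPrimes R R, (p : Set R) := by
    rw [biUnion_associatedPrimes_eq_zero_divisors]
    exact ⟨a, hne, ha⟩
  rw [Set.mem_iUnion₂] at h2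
  obtain ⟨P, hP, hxP⟩ := h2
  exact hN ⟨P, hP⟩ δ (Ideal.pow_le_pow_right
    (Finset.single_le_sum (f := N) (fun _ _ => Nat.zero_le _) (Finset.mem_univ ⟨P, hP⟩)) hδ) hxP

omit [IsNoetherianRing R] in
theorem quot_local {y : R} (hy : y ∈ maximalIdeal R) : IsLocalRing (R ⧸ Ideal.span {y}) := by
  have hnt : Nontrivial (R ⧸ Ideal.span {y}) := by
    rw [Ideal.Quotient.nontrivial_iff]
    intro h
    have h1 : Ideal.span {y} ≤ maximalIdeal R := by
      rw [Ideal.span_singleton_le_iff_mem]
      exact hy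
    rw [h, top_le_iff] at h1
    exact (maximalIdeal.isMaximal R).ne_top h1
  exact IsLocalRing.of_surjective' _ Ideal.Quotient.mk_surjective

omit [IsNoetherianRing R] in
theorem mk_mem_max {y : R} (hy : y ∈ maximalIdeal R) [IsLocalRing (R ⧸ Ideal.span {y})] (z : R) :
    Ideal.Quotient.mk (Ideal.span {y}) z ∈ maximalIdeal (R ⧸ Ideal.span {y}) ↔
      z ∈ maximalIdeal R := by
  rw [mem_maximalIdeal, mem_maximalIdeal]
  apply not_congr
  constructor
  · intro h
    by_contra hz
    have hz' : z ∈ maximalIdeal R := (mem_maximalIdeal _).2 hz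
    obtain ⟨u, hu⟩ := h.exists_right_inv
    obtain ⟨u, rfl⟩ := Ideal.Quotient.mk_surjective u
    rw [← map_mul, ← map_one (Ideal.Quotient.mk (Ideal.span {y})), Ideal.Quotient.eq,
      Ideal.mem_span_singleton'] at hu
    obtain ⟨a, ha⟩ := hu
    have h1 : (1 : R) = z * u - a * y := by rw [ha]; ring
    have h2 : (1 : R) ∈ maximalIdeal R := by
      rw [h1]
      exact Ideal.sub_mem _ (Ideal.mul_mem_right _ _ hz') (Ideal.mul_mem_left _ _ hy)
    exact (Ideal.ne_top_iff_one _).1 (maximalIdeal.isMaximal R).ne_top h2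
  · exact fun h => h.map _

omit [IsNoetherianRing R] in
theorem quot_char (p : ℕ) [hp : Fact p.Prime] [CharP R p] {y : R}
    [IsLocalRing (R ⧸ Ideal.span {y})] : CharP (R ⧸ Ideal.span {y}) p := by
  apply ringChar.of_eq
  apply CharP.ringChar_of_prime_eq_zero hp.out
  rw [← map_natCast (Ideal.Quotient.mk (Ideal.span {y})), CharP.cast_eq_zero, map_zero]

omit [IsNoetherianRing R] in
/-- Lifting a family along `R → R ⧸ (x)` and adding `x`. -/
theorem rad_lift {x : R} (hx : x ∈ maximalIdeal R) [IsLocalRing (R ⧸ Ideal.span {x})] {d : ℕ}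
    {wb : Fin d → R ⧸ Ideal.span {x}} {w0 : Fin d → R}
    (hw0 : ∀ j, Ideal.Quotient.mk (Ideal.span {x}) (w0 j) = wb j)
    (hwb : (Ideal.span (Set.range wb)).radical = maximalIdeal (R ⧸ Ideal.span {x})) :
    (Ideal.span (Set.range (Fin.cons x w0 : Fin (d + 1) → R))).radical = maximalIdeal R := by
  apply le_antisymm
  · rw [(maximalIdeal.isMaximal R).isPrime.radical_le_iff, Ideal.span_le]
    rintro _ ⟨j, rfl⟩
    refine Fin.cases ?_ ?_ j
    · exact hx
    · intro j
      rw [Fin.cons_succ, SetLike.mem_coe, ← mk_mem_max hx, hw0, ← hwb]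
      exact Ideal.le_radical (Ideal.subset_span ⟨j, rfl⟩)
  · intro z hz
    rw [← mk_mem_max hx, ← hwb] at hz
    obtain ⟨n, hn⟩ := hz
    refine ⟨n, ?_⟩
    have h1 : Ideal.span (Set.range wb) = (Ideal.span (Set.range w0)).map
        (Ideal.Quotient.mk (Ideal.span {x})) := by
      rw [Ideal.map_span, ← Set.range_comp]
      congr 2
      funext j
      exact (hw0 j).symm
    rw [h1, ← map_pow, Ideal.mem_map_iff_of_surjective _ Ideal.Quotient.mk_surjective] at hn
    obtain ⟨a, ha, ha'⟩ := hn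
    rw [eq_comm, Ideal.Quotient.eq, Ideal.mem_span_singleton'] at ha'
    obtain ⟨b, hb⟩ := ha'
    have h2 : z ^ n = a + b * x := by rw [hb]; ring
    rw [h2]
    apply Ideal.add_mem
    · refine Ideal.span_mono ?_ ha
      rintro _ ⟨j, rfl⟩
      exact ⟨j.succ, Fin.cons_succ _ _ _⟩
    · exact Ideal.mul_mem_left _ _ (Ideal.subset_span ⟨0, Fin.cons_zero _ _⟩)

omit [IsNoetherianRing R] in
/-- Reducing a family. -/
theorem rad_quot {y : R} (hy : y ∈ maximalIdeal R) [IsLocalRing (R ⧸ Ideal.span {y})] {d : ℕ}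
    {w : Fin d → R} (hw : (Ideal.span (Set.range w)).radical = maximalIdeal R) :
    (Ideal.span (Set.range fun j => Ideal.Quotient.mk (Ideal.span {y}) (w j))).radical =
      maximalIdeal (R ⧸ Ideal.span {y}) := by
  apply le_antisymm
  · rw [(maximalIdeal.isMaximal (R ⧸ Ideal.span {y})).isPrime.radical_le_iff, Ideal.span_le]
    rintro _ ⟨j, rfl⟩
    rw [SetLike.mem_coe, mk_mem_max hy, ← hw]
    exact Ideal.le_radical (Ideal.subset_span ⟨j, rfl⟩)
  · intro z hz
    obtain ⟨z, rfl⟩ := Ideal.Quotient.mk_surjective z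
    rw [mk_mem_max hy, ← hw] at hz
    obtain ⟨n, hn⟩ := hz
    refine ⟨n, ?_⟩
    have h1 := Ideal.mem_map_of_mem (Ideal.Quotient.mk (Ideal.span {y})) hn
    rw [Ideal.map_span, ← Set.range_comp, map_pow] at h1
    exact h1

/-- The main theorem. -/
theorem main (p : ℕ) [hp : Fact p.Prime] [CharP R p] {x : R} (hx : x ∈ maximalIdeal R)
    (hnz : ∀ a : R, x * a = 0 → a = 0) [IsLocalRing (R ⧸ Ideal.span {x})] {d : ℕ}
    {wb : Fin d → R ⧸ Ideal.span {x}}
    (hwb : (Ideal.span (Set.range wb)).radical = maximalIdeal (R ⧸ Ideal.span {x}))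
    (hfull : FullFor p wb) :
    ∃ (N : ℕ) (w : Fin (d + 1) → R), (Ideal.span (Set.range w)).radical = maximalIdeal R ∧
      ∀ δ ∈ maximalIdeal R ^ N, x + δ ∈ maximalIdeal R ∧
        FullFor p fun j => Ideal.Quotient.mk (Ideal.span {x + δ}) (w j) := by
  have hch : CharP (R ⧸ Ideal.span {x}) p := quot_char p
  choose w0 hw0 using fun j => Ideal.Quotient.mk_surjective (I := Ideal.span {x}) (wb j)
  set w : Fin (d + 1) → R := Fin.cons x w0 with hw
  have hrad := rad_lift hx hw0 hwb
  rw [← hw] at hrad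
  have Z0 : Red (cech p w) (cech p wb) (Ideal.Quotient.mk (Ideal.span {x})) x :=
    redC _ (Fin.succOrderEmb d) (fun j => hw0 j) p x Ideal.Quotient.mk_surjective
      (fun a ha => by
        rw [Ideal.Quotient.eq_zero_iff_mem, Ideal.mem_span_singleton'] at ha
        obtain ⟨b, hb⟩ := ha
        exact ⟨b, by rw [← hb, mul_comm]⟩)
      (Ideal.Quotient.eq_zero_iff_mem.2 (Ideal.mem_span_singleton_self x)) hnz
      (fun k => by
        refine Fin.cases ?_ ?_ k
        · intro _; rfl
        · intro k hk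
          exact absurd ⟨k, rfl⟩ hk)
  have hG : Good (cech p w).FrH p x x := good_of_full Z0 (full_of_fullFor p hfull)
  have hA : IsArtinian R (cech p w).Coh := art_coh hrad p
  have hs := surj_of_good _ (cech p w).FrH_smul hG (fun h => exists_pow_smul_eq_zero hx h)
  obtain ⟨N1, hN1⟩ := core_frob p _ (cech p w).FrH_smul hx hs hG
  obtain ⟨N2, hN2⟩ := pert_nzd hnz
  refine ⟨N1 + N2 + 1, w, hrad, fun δ hδ => ?_⟩
  have hδ1 : δ ∈ maximalIdeal R ^ N1 := Ideal.pow_le_pow_right (by omega) hδ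
  have hδ2 : δ ∈ maximalIdeal R ^ N2 := Ideal.pow_le_pow_right (by omega) hδ
  have hδ3 : δ ∈ maximalIdeal R := by
    have h1 := Ideal.pow_le_pow_right (I := maximalIdeal R) (show 1 ≤ N1 + N2 + 1 by omega) hδ
    rwa [pow_one] at h1
  have hy : x + δ ∈ maximalIdeal R := Ideal.add_mem _ hx hδ3
  have hloc := quot_local hy
  have hch' : CharP (R ⧸ Ideal.span {x + δ}) p := quot_char p
  refine ⟨hy, fullFor_of_full p ?_⟩
  have Z1 : Red (cech p w) (cech p fun j => Ideal.Quotient.mk (Ideal.span {x + δ}) (w j))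
      (Ideal.Quotient.mk (Ideal.span {x + δ})) (x + δ) :=
    redC _ (RelEmbedding.refl _) (fun j => rfl) p (x + δ) Ideal.Quotient.mk_surjective
      (fun a ha => by
        rw [Ideal.Quotient.eq_zero_iff_mem, Ideal.mem_span_singleton'] at ha
        obtain ⟨b, hb⟩ := ha
        exact ⟨b, by rw [← hb, mul_comm]⟩)
      (Ideal.Quotient.eq_zero_iff_mem.2 (Ideal.mem_span_singleton_self _)) (hN2 δ hδ2)
      (fun k hk => absurd ⟨k, rfl⟩ hk)
  exact full_of_good Z1 (hN1 δ hδ1).1 (hN1 δ hδ1).2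

end

end Q37.FF
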