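import Pool.Agent.Q37.FF.Art

/-!
# Base change of Artinian modules
-/

set_option autoImplicit false
set_option linter.unusedVariables false

namespace Q37.FF

open IsLocalRing TensorProduct

universe u

section

variable {R A : Type u} [CommRing R] [CommRing A] [Algebra R A]

/-- An Artinian module killed by the maximal ideal is finite. -/
theorem finite_of_killed [IsLocalRing R] (M : Type u) [AddCommGroup M] [Module R M] [IsArtinian R M]
    (h : ∀ z ∈ maximalIdeal R, ∀ m : M, z • m = 0) : Module.Finite R M := by
  have ht : Module.IsTorsionBySet R M (maximalIdeal R : Set R) := fun m z => h z z.2 m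
  let : Module (R ⧸ maximalIdeal R) M := ht.module
  have : IsScalarTower R (R ⧸ maximalIdeal R) M := ht.isScalarTower
  have : IsArtinian (R ⧸ maximalIdeal R) M := isArtinian_of_tower R ‹_›
  let : Field (R ⧸ maximalIdeal R) := Ideal.Quotient.field _
  have h0 : IsArtinian (R ⧸ maximalIdeal R) M ↔ Module.Finite (R ⧸ maximalIdeal R) M :=
    (IsArtinianRing.tfae (R := R ⧸ maximalIdeal R) (M := M)).out 2 0
  have h1 : Module.Finite (R ⧸ maximalIdeal R) M := h0.1 inferInstance
  exact Module.Finite.trans (R ⧸ maximalIdeal R) M

/-- A finite module killed by an ideal with Artinian residue ring is Artinian. -/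
theorem artinian_of_killed (I : Ideal A) [IsArtinianRing (A ⧸ I)] (M : Type u) [AddCommGroup M]
    [Module A M] [Module.Finite A M] (h : ∀ z ∈ I, ∀ m : M, z • m = 0) : IsArtinian A M := by
  have ht : Module.IsTorsionBySet A M (I : Set A) := fun m z => h z z.2 m
  let : Module (A ⧸ I) M := ht.module
  have : IsScalarTower A (A ⧸ I) M := ht.isScalarTower
  have : Module.Finite (A ⧸ I) M := Module.Finite.of_restrictScalars_finite A (A ⧸ I) M
  have : IsArtinian (A ⧸ I) M := inferInstance
  exact isArtinian_of_surjective_algebraMap (R := A ⧸ I) (S := A) Ideal.Quotient.mk_surjective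

theorem tens_artinian [IsNoetherianRing R] [IsLocalRing R]
    (hA : IsArtinianRing (A ⧸ (maximalIdeal R).map (algebraMap R A)))
    (M : Type u) [AddCommGroup M] [Module R M] [IsArtinian R M] : IsArtinian A (A ⊗[R] M) := by
  apply art_induction (R := R) (fun M _ _ => IsArtinian A (A ⊗[R] M))
  · intro M M1 _ _ _ _ _ r f hf hr h1 h2
    apply isArtinian_of_range_eq_ker (f.baseChange A)
      ((LinearMap.range (LinearMap.lsmul R M r)).mkQ.baseChange A)
    have hex : Function.Exact f (LinearMap.range (LinearMap.lsmul R M r)).mkQ := by
      rw [LinearMap.exact_iff, Submodule.ker_mkQ, hr]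
    have h3 := lTensor_exact A hex (Submodule.mkQ_surjective _)
    ext t
    exact (h3 t).symm
  · intro M _ _ _ hall IH
    by_cases hz : ∃ z ∈ maximalIdeal R, ∃ m : M, z • m ≠ 0
    · obtain ⟨z, hz, m0, hm0⟩ := hz
      have hsurj : ∀ m : M, ∃ m' : M, z • m' = m := by
        rcases hall z with h | h
        · exact absurd (h m0) hm0
        · exact h
      set K := LinearMap.ker (LinearMap.lsmul R M z) with hK
      have hKA : IsArtinian A (A ⊗[R] K) := by
        apply IH K
        refine lt_of_le_of_ne ?_ ?_
        · intro s hs
          rw [Module.mem_annihilator] at hs ⊢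
          exact fun m => Subtype.ext (hs m)
        · intro he
          have h1 : z ∈ Module.annihilator R K := by
            rw [Module.mem_annihilator]
            exact fun m => Subtype.ext m.2
          rw [← he, Module.mem_annihilator] at h1
          exact hm0 (h1 m0)
      have hex : Function.Exact K.subtype (LinearMap.lsmul R M z) := by
        rw [LinearMap.exact_iff, Submodule.range_subtype]
      have h3 := lTensor_exact A hex hsurj
      have hker : LinearMap.ker (LinearMap.lsmul A (A ⊗[R] M) (algebraMap R A z)) =
          LinearMap.range (K.subtype.baseChange A) := by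
        ext t
        rw [LinearMap.mem_ker, LinearMap.lsmul_apply]
        have h4 : algebraMap R A z • t = LinearMap.lTensor A (LinearMap.lsmul R M z) t := by
          induction t using TensorProduct.induction_on with
          | zero => rw [smul_zero, map_zero]
          | tmul a m =>
            rw [LinearMap.lTensor_tmul, LinearMap.lsmul_apply, ← TensorProduct.smul_tmul,
              ← TensorProduct.smul_tmul', algebraMap_smul]
          | add t s ht hs => rw [smul_add, map_add, ht, hs]
        rw [h4]
        exact h3 t
      have : IsArtinian A (LinearMap.ker (LinearMap.lsmul A (A ⊗[R] M) (algebraMap R A z))) := by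
        rw [hker]
        infer_instance
      apply isArtinian_of_ker (algebraMap R A z)
      intro t
      induction t using TensorProduct.induction_on with
      | zero => exact ⟨0, smul_zero _⟩
      | tmul a m =>
        obtain ⟨n, hn⟩ := exists_pow_smul_eq_zero hz m
        refine ⟨n, ?_⟩
        rw [← map_pow, algebraMap_smul, TensorProduct.smul_tmul',
          TensorProduct.smul_tmul, hn, TensorProduct.tmul_zero]
      | add t s ht hs =>
        obtain ⟨n, hn⟩ := ht
        obtain ⟨k, hk⟩ := hs
        refine ⟨n + k, ?_⟩
        rw [smul_add, add_comm n k, pow_add, mul_smul, hn, smul_zero, zero_add, mul_comm, mul_smul, hk,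
          smul_zero]
    · push Not at hz
      have := finite_of_killed M hz
      have : Module.Finite A (A ⊗[R] M) := inferInstance
      have := hA
      apply artinian_of_killed ((maximalIdeal R).map (algebraMap R A))
      intro z hz'
      have h1 : (maximalIdeal R).map (algebraMap R A) ≤ Module.annihilator A (A ⊗[R] M) := by
        rw [Ideal.map_le_iff_le_comap]
        intro w hw
        rw [Ideal.mem_comap, Module.mem_annihilator]
        intro t
        induction t using TensorProduct.induction_on with
        | zero => rw [smul_zero]
        | tmul a m =>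
          rw [algebraMap_smul, TensorProduct.smul_tmul',
            TensorProduct.smul_tmul, hz w hw, TensorProduct.tmul_zero]
        | add t s ht hs => rw [smul_add, ht, hs, add_zero]
      exact Module.mem_annihilator.1 (h1 hz')

end

end Q37.FF
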